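import Pool.Agent.Helper77.CoGirth.GraphIso

set_option autoImplicit false

namespace Pool.Agent.Helper77.CoGirth

section

variable {n₀ : ℕ} {E : List (ℕ × ℕ)} {k : ℕ}

/-- The ends of an input edge. -/
def edOf (E : List (ℕ × ℕ)) (hE : ∀ p ∈ E, p.1 < p.2 ∧ p.2 < n₀ + 1) (e : Fin E.length) :
    Fin (n₀ + 1) × Fin (n₀ + 1) :=
  (⟨(E.get e).1, (hE _ (List.get_mem E e)).1.trans (hE _ (List.get_mem E e)).2⟩,
    ⟨(E.get e).2, (hE _ (List.get_mem E e)).2⟩)

theorem getD_of_fin (E : List (ℕ × ℕ)) (e : Fin E.length) : E.getD (e : ℕ) (0, 0) = E.get e := by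
  rw [List.getD_eq_getElem _ _ e.isLt]
  rfl

theorem base_eq (E : List (ℕ × ℕ)) (k : ℕ) :
    base (n₀ + 1) E k = 2 + (n₀ + 1) + E.length + (n₀ - k) * n₀ := by
  unfold base
  have : n₀ + 1 - k - 1 = n₀ - k := by omega
  rw [this, Nat.add_sub_cancel]

theorem length_heavy_eq (E : List (ℕ × ℕ)) (k : ℕ) : (heavy (n₀ + 1) E k).length =
    1 + (n₀ + 1) + E.length * 2 + (n₀ - k) * (n₀ * 2 + 1) := by
  rw [length_heavy]
  have : n₀ + 1 - k - 1 = n₀ - k := by omega
  rw [this, Nat.add_sub_cancel]

theorem numS_chain {m T : ℕ} (j : Fin T) (i : ℕ) (hi : i ≤ n₀) :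
    numS (chain j i : Sk n₀ m T) = if i = 0 then 2 else 2 + (n₀ + 1) + m + (j * n₀ + (i - 1)) := by
  cases i with
  | zero => simp [chain, numS]
  | succ i =>
    have : i < n₀ := by omega
    simp [chain, this, numS]

/-- The pair of the list `heavy` corresponding to a heavy bar. -/
theorem heavy_getD (hE : ∀ p ∈ E, p.1 < p.2 ∧ p.2 < n₀ + 1) (hn : 1 ≤ n₀)
    (h : Hv n₀ E.length (n₀ - k)) :
    (heavy (n₀ + 1) E k).getD (hidx h) (0, 0) =
        (numS (heavyEnds (edOf E hE) h).1, numS (heavyEnds (edOf E hE) h).2) ∨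
      (heavy (n₀ + 1) E k).getD (hidx h) (0, 0) =
        (numS (heavyEnds (edOf E hE) h).2, numS (heavyEnds (edOf E hE) h).1) := by
  have hT : n₀ + 1 - k - 1 = n₀ - k := by omega
  cases h with
  | g => right; rfl
  | gy v =>
    right
    simp only [hidx]
    rw [getD_heavy_gy _ _ _ _ v.isLt]
    rfl
  | xa e =>
    left
    simp only [hidx]
    rw [getD_heavy_xa _ _ _ _ e.isLt, getD_of_fin]
    rfl
  | xb e =>
    left
    simp only [hidx]
    rw [getD_heavy_xb _ _ _ _ e.isLt, getD_of_fin]
    rfl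
  | rp j i =>
    left
    simp only [hidx]
    have h1 := i.isLt
    have h2 := getD_heavy_chain (n₀ + 1) E k j (i * 2) (by rw [hT]; exact j.isLt)
      (by rw [Nat.add_sub_cancel]; omega)
    rw [Nat.add_sub_cancel] at h2
    rw [h2, getD_chainBars_rp _ _ _ _ (by rw [Nat.add_sub_cancel]; exact i.isLt)]
    simp only [heavyEnds]
    rw [numS_chain j i (le_of_lt i.isLt)]
    simp only [numS, rr, Nat.add_sub_cancel]
    simp only [add_assoc]
  | ry j i =>
    left
    simp only [hidx]
    have h1 := i.isLt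
    have h2 := getD_heavy_chain (n₀ + 1) E k j (i * 2 + 1) (by rw [hT]; exact j.isLt)
      (by rw [Nat.add_sub_cancel]; omega)
    rw [Nat.add_sub_cancel] at h2
    rw [h2, getD_chainBars_ry _ _ _ _ (by rw [Nat.add_sub_cancel]; exact i.isLt)]
    simp only [heavyEnds, numS, rr, Nat.add_sub_cancel, Fin.val_succ]
    simp only [add_assoc]
  | rg j =>
    right
    simp only [hidx]
    have h2 := getD_heavy_chain (n₀ + 1) E k j (n₀ * 2) (by rw [hT]; exact j.isLt)
      (by rw [Nat.add_sub_cancel]; omega)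
    rw [Nat.add_sub_cancel] at h2
    have h3 := getD_chainBars_rg (n₀ + 1) E j
    rw [Nat.add_sub_cancel] at h3
    rw [h2, h3]
    simp only [heavyEnds]
    rw [numS_chain j n₀ le_rfl]
    simp only [numS, rr, Nat.add_sub_cancel]
    rw [if_neg (by omega)]
    have : n₀ + 1 - 2 = n₀ - 1 := by omega
    rw [this]
    simp only [add_assoc]

/-- The number of a vertex of the constructed graph. -/
def num (n₀ : ℕ) (E : List (ℕ × ℕ)) (k : ℕ) : GV n₀ E.length k → ℕ
  | Sum.inl s => numS s
  | Sum.inr (h, t) => priv (n₀ + 1) E k (hidx h) t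

theorem num_injective : Function.Injective (num n₀ E k) := by
  intro a b h
  cases a with
  | inl s => cases b with
    | inl s' =>
      simp only [num] at h
      rw [numS_injective h]
    | inr ht' =>
      obtain ⟨h', t'⟩ := ht'
      simp only [num, priv, base_eq] at h
      have h1 := numS_lt s
      generalize hidx h' * (E.length + 1) = w at h
      omega
  | inr ht => obtain ⟨h₁, t⟩ := ht; cases b with
    | inl s' =>
      simp only [num, priv, base_eq] at h
      have h1 := numS_lt s'
      generalize hidx h₁ * (E.length + 1) = w at h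
      omega
    | inr ht' =>
      obtain ⟨h', t'⟩ := ht'
      simp only [num, priv, add_assoc] at h
      obtain ⟨h3, h4⟩ := mul_add_inj t.isLt t'.isLt (Nat.add_left_cancel h)
      rw [hidx_injective h3, Fin.ext h4]

theorem num_lt (v : GV n₀ E.length k) : num n₀ E k v < numV (n₀ + 1) E k := by
  unfold numV
  cases v with
  | inl s =>
    simp only [num]
    have := numS_lt s
    rw [base_eq]
    exact lt_of_lt_of_le this (Nat.le_add_right _ _)
  | inr ht =>
    obtain ⟨h, t⟩ := ht
    simp only [num, priv]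
    have h1 := hidx_lt h
    rw [← length_heavy_eq] at h1
    have := mul_add_lt t.isLt h1
    omega

/-- The vertex numbering as an equivalence. -/
noncomputable def numEquiv (n₀ : ℕ) (E : List (ℕ × ℕ)) (k : ℕ) :
    GV n₀ E.length k ≃ Fin (numV (n₀ + 1) E k) :=
  Equiv.ofBijective (fun v => ⟨num n₀ E k v, num_lt v⟩) (by
    rw [Fintype.bijective_iff_injective_and_card]
    refine ⟨fun a b h => num_injective (congrArg Fin.val h), ?_⟩
    rw [Fintype.card_sum, Fintype.card_prod, card_sk, card_hv, Fintype.card_fin, Fintype.card_fin]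
    unfold numV
    rw [base_eq, length_heavy_eq]
    ring)

theorem mem_bodyEdges {n : ℕ} {h : ℕ} {p : ℕ × ℕ} :
    p ∈ bodyEdges n E k h ↔ p = (heavy n E k).getD h (0, 0) ∨
      (∃ t < E.length + 1, (p.1 = ((heavy n E k).getD h (0, 0)).1 ∨
        p.1 = ((heavy n E k).getD h (0, 0)).2) ∧ p.2 = priv n E k h t) ∨
      (∃ t < E.length + 1, ∃ t' < t, p = (priv n E k h t', priv n E k h t)) := by
  unfold bodyEdges
  simp only [List.mem_append, List.mem_flatMap, List.mem_range, List.mem_map,
    List.mem_cons, List.not_mem_nil, or_false, or_assoc]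
  constructor
  · rintro (h | ⟨t, ht, (h | h)⟩ | ⟨t, ht, t', ht', h⟩)
    · exact Or.inl h
    · exact Or.inr (Or.inl ⟨t, ht, Or.inl (by rw [h]), by rw [h]⟩)
    · exact Or.inr (Or.inl ⟨t, ht, Or.inr (by rw [h]), by rw [h]⟩)
    · exact Or.inr (Or.inr ⟨t, ht, t', ht', h.symm⟩)
  · rintro (h | ⟨t, ht, (h | h), h2⟩ | ⟨t, ht, t', ht', h⟩)
    · exact Or.inl h
    · exact Or.inr (Or.inl ⟨t, ht, Or.inl (Prod.ext h h2)⟩)
    · exact Or.inr (Or.inl ⟨t, ht, Or.inr (Prod.ext h h2)⟩)
    · exact Or.inr (Or.inr ⟨t, ht, t', ht', h.symm⟩)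

theorem mem_edges {n : ℕ} {p : ℕ × ℕ} :
    p ∈ edges n E k ↔ (∃ i < E.length, p = (0, 2 + n + i)) ∨
      ∃ h < (heavy n E k).length, p ∈ bodyEdges n E k h := by
  unfold edges light
  simp only [List.mem_append, List.mem_map, List.mem_range, List.mem_flatMap]
  constructor
  · rintro (⟨i, hi, h⟩ | h)
    · exact Or.inl ⟨i, hi, h.symm⟩
    · exact Or.inr h
  · rintro (⟨i, hi, h⟩ | h)
    · exact Or.inl ⟨i, hi, h.symm⟩
    · exact Or.inr h

/-- The relation generating the adjacency of `redGraph`. -/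
def relGV (hE : ∀ p ∈ E, p.1 < p.2 ∧ p.2 < n₀ + 1) (u v : GV n₀ E.length k) : Prop :=
  (∃ h i j, u = bodyVert (E.length + 1) (heavyEnds (edOf E hE)) h i ∧
    v = bodyVert (E.length + 1) (heavyEnds (edOf E hE)) h j) ∨
      (∃ l, u = Sum.inl (lightEnds l).1 ∧ v = Sum.inl (lightEnds l).2)

theorem num_bodyVert_zero (hE : ∀ p ∈ E, p.1 < p.2 ∧ p.2 < n₀ + 1)
    (h : Hv n₀ E.length (n₀ - k)) :
    num n₀ E k (bodyVert (E.length + 1) (heavyEnds (edOf E hE)) h 0) =
      numS (heavyEnds (edOf E hE) h).1 := rfl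

theorem num_bodyVert_one (hE : ∀ p ∈ E, p.1 < p.2 ∧ p.2 < n₀ + 1)
    (h : Hv n₀ E.length (n₀ - k)) :
    num n₀ E k (bodyVert (E.length + 1) (heavyEnds (edOf E hE)) h 1) =
      numS (heavyEnds (edOf E hE) h).2 := rfl

theorem num_bodyVert_succ (hE : ∀ p ∈ E, p.1 < p.2 ∧ p.2 < n₀ + 1)
    (h : Hv n₀ E.length (n₀ - k)) (t : Fin (E.length + 1)) :
    num n₀ E k (bodyVert (E.length + 1) (heavyEnds (edOf E hE)) h t.succ.succ) =
      priv (n₀ + 1) E k (hidx h) t := rfl

theorem rel_of_mem (hE : ∀ p ∈ E, p.1 < p.2 ∧ p.2 < n₀ + 1) (hn : 1 ≤ n₀)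
    (u v : GV n₀ E.length k) (h : (num n₀ E k u, num n₀ E k v) ∈ edges (n₀ + 1) E k) :
    relGV hE u v ∨ relGV hE v u := by
  rw [mem_edges] at h
  rcases h with ⟨i, hi, h⟩ | ⟨a, ha, h⟩
  · right; right
    refine ⟨⟨i, hi⟩, ?_, ?_⟩
    · apply num_injective
      rw [(Prod.mk.inj h).2]
      simp only [lightEnds, num, numS]
    · apply num_injective
      rw [(Prod.mk.inj h).1]
      simp only [lightEnds, num, numS]
  · left; left
    rw [length_heavy_eq] at ha
    obtain ⟨h', rfl⟩ := hidx_surj a ha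
    rw [mem_bodyEdges] at h
    have hH := heavy_getD (k := k) hE hn h'
    rcases h with h | ⟨t, ht, h1, h2⟩ | ⟨t, ht, t', ht', h⟩
    · rcases hH with hH | hH <;> rw [hH] at h
      · refine ⟨h', 0, 1, num_injective ?_, num_injective ?_⟩
        · exact (Prod.mk.inj h).1
        · exact (Prod.mk.inj h).2
      · refine ⟨h', 1, 0, num_injective ?_, num_injective ?_⟩
        · exact (Prod.mk.inj h).1
        · exact (Prod.mk.inj h).2
    · have hv : v = bodyVert (E.length + 1) (heavyEnds (edOf E hE)) h'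
          (⟨t, ht⟩ : Fin (E.length + 1)).succ.succ := num_injective h2
      rcases hH with hH | hH <;> rw [hH] at h1 <;> rcases h1 with h1 | h1
      · exact ⟨h', 0, _, num_injective h1, hv⟩
      · exact ⟨h', 1, _, num_injective h1, hv⟩
      · exact ⟨h', 1, _, num_injective h1, hv⟩
      · exact ⟨h', 0, _, num_injective h1, hv⟩
    · exact ⟨h', (⟨t', by omega⟩ : Fin (E.length + 1)).succ.succ,
        (⟨t, ht⟩ : Fin (E.length + 1)).succ.succ, num_injective (Prod.mk.inj h).1,
        num_injective (Prod.mk.inj h).2⟩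

theorem mem_of_rel (hE : ∀ p ∈ E, p.1 < p.2 ∧ p.2 < n₀ + 1) (hn : 1 ≤ n₀)
    (u v : GV n₀ E.length k) (huv : u ≠ v) (h : relGV hE u v) :
    (num n₀ E k u, num n₀ E k v) ∈ edges (n₀ + 1) E k ∨
      (num n₀ E k v, num n₀ E k u) ∈ edges (n₀ + 1) E k := by
  rcases h with ⟨h, i, j, rfl, rfl⟩ | ⟨l, rfl, rfl⟩
  · have hlen : hidx h < (heavy (n₀ + 1) E k).length := by
      rw [length_heavy_eq]; exact hidx_lt h
    have hH := heavy_getD (k := k) hE hn h
    have key : ∀ p, p ∈ bodyEdges (n₀ + 1) E k (hidx h) → p ∈ edges (n₀ + 1) E k :=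
      fun p hp => mem_edges.mpr (Or.inr ⟨_, hlen, hp⟩)
    revert huv
    refine Fin.cases ?_ (fun i' => ?_) i <;> refine Fin.cases ?_ (fun j' => ?_) j
    · intro h0; exact absurd rfl h0
    · refine Fin.cases ?_ (fun t => ?_) j'
      · intro _
        rcases hH with hH | hH
        · left
          apply key
          rw [mem_bodyEdges, hH]
          exact Or.inl rfl
        · right
          apply key
          rw [mem_bodyEdges, hH]
          exact Or.inl rfl
      · intro _
        left
        apply key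
        rw [mem_bodyEdges]
        right; left
        refine ⟨t, t.isLt, ?_, rfl⟩
        rcases hH with hH | hH <;> rw [hH]
        · left; rfl
        · right; rfl
    · refine Fin.cases ?_ (fun t => ?_) i'
      · intro _
        rcases hH with hH | hH
        · right
          apply key
          rw [mem_bodyEdges, hH]
          exact Or.inl rfl
        · left
          apply key
          rw [mem_bodyEdges, hH]
          exact Or.inl rfl
      · intro _
        right
        apply key
        rw [mem_bodyEdges]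
        right; left
        refine ⟨t, t.isLt, ?_, rfl⟩
        rcases hH with hH | hH <;> rw [hH]
        · left; rfl
        · right; rfl
    · refine Fin.cases ?_ (fun t => ?_) i' <;> refine Fin.cases ?_ (fun t' => ?_) j'
      · intro h0; exact absurd rfl h0
      · intro _
        left
        apply key
        rw [mem_bodyEdges]
        right; left
        refine ⟨t', t'.isLt, ?_, rfl⟩
        rcases hH with hH | hH <;> rw [hH]
        · right; rfl
        · left; rfl
      · intro _
        right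
        apply key
        rw [mem_bodyEdges]
        right; left
        refine ⟨t, t.isLt, ?_, rfl⟩
        rcases hH with hH | hH <;> rw [hH]
        · right; rfl
        · left; rfl
      · intro h0
        have hne : (t : ℕ) ≠ (t' : ℕ) := fun h1 => h0 (by rw [Fin.ext h1])
        rcases Nat.lt_or_gt_of_ne hne with hlt | hgt
        · left
          apply key
          rw [mem_bodyEdges]
          right; right
          exact ⟨t', t'.isLt, t, hlt, rfl⟩
        · right
          apply key
          rw [mem_bodyEdges]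
          right; right
          exact ⟨t, t.isLt, t', hgt, rfl⟩
  · right
    rw [mem_edges]
    left
    refine ⟨l, l.isLt, ?_⟩
    simp only [lightEnds, num, numS]

/-- The numbering is an isomorphism of graphs. -/
noncomputable def graphIso (hE : ∀ p ∈ E, p.1 < p.2 ∧ p.2 < n₀ + 1) (hn : 1 ≤ n₀) :
    redGraph k (edOf E hE) ≃g graph (n₀ + 1) E k where
  toEquiv := numEquiv n₀ E k
  map_rel_iff' := by
    intro u v
    have h1 : ((numEquiv n₀ E k u : Fin _) : ℕ) = num n₀ E k u := rfl
    have h2 : ((numEquiv n₀ E k v : Fin _) : ℕ) = num n₀ E k v := rfl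
    have h3 : (redGraph k (edOf E hE)).Adj u v ↔ u ≠ v ∧ (relGV hE u v ∨ relGV hE v u) := by
      unfold redGraph heavyGraph
      rw [SimpleGraph.fromRel_adj]
      rfl
    rw [h3]
    change (numEquiv n₀ E k u ≠ numEquiv n₀ E k v ∧ _) ↔ _
    rw [h1, h2]
    constructor
    · rintro ⟨hne, h⟩
      refine ⟨fun h0 => hne (by rw [h0]), ?_⟩
      rcases h with h | h
      · exact rel_of_mem hE hn u v h
      · exact (rel_of_mem hE hn v u h).symm
    · rintro ⟨hne, h⟩
      refine ⟨fun h0 => hne ((numEquiv n₀ E k).injective h0), ?_⟩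
      rcases h with h | h
      · exact mem_of_rel hE hn u v hne h
      · exact (mem_of_rel hE hn v u hne.symm h).symm

theorem hasClique_iff (hE : ∀ p ∈ E, p.1 < p.2 ∧ p.2 < n₀ + 1) :
    HasClique (n₀ + 1) E k ↔
      ∃ K : Finset (Fin (n₀ + 1)), K.card = k ∧ IsCliqueOf (edOf E hE) K := by
  constructor
  · rintro ⟨K, hK, hc, hcl⟩
    refine ⟨Finset.univ.filter (fun v : Fin (n₀ + 1) => (v : ℕ) ∈ K), ?_, ?_⟩
    · rw [← hc]
      apply Finset.card_bij (fun (v : Fin (n₀ + 1)) _ => (v : ℕ))
      · intro v hv; exact (Finset.mem_filter.mp hv).2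
      · intro v _ w _ h; exact Fin.ext h
      · intro x hx
        exact ⟨⟨x, Finset.mem_range.mp (hK hx)⟩, by simp [hx], rfl⟩
    · intro u hu v hv huv
      have hu := (Finset.mem_filter.mp hu).2
      have hv := (Finset.mem_filter.mp hv).2
      have hne : (u : ℕ) ≠ (v : ℕ) := fun h => huv (Fin.ext h)
      rcases Nat.lt_or_gt_of_ne hne with hlt | hgt
      · obtain ⟨e, he⟩ := List.get_of_mem (hcl _ hu _ hv hlt)
        refine ⟨e, ?_⟩
        have h1 : (edOf E hE e).1 = u := Fin.ext (by simp only [edOf, he])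
        have h2 : (edOf E hE e).2 = v := Fin.ext (by simp only [edOf, he])
        rw [h1, h2]
      · obtain ⟨e, he⟩ := List.get_of_mem (hcl _ hv _ hu hgt)
        refine ⟨e, ?_⟩
        have h1 : (edOf E hE e).1 = v := Fin.ext (by simp only [edOf, he])
        have h2 : (edOf E hE e).2 = u := Fin.ext (by simp only [edOf, he])
        rw [h1, h2, Sym2.eq_swap]
  · rintro ⟨K, hc, hcl⟩
    refine ⟨K.map Fin.valEmbedding, ?_, ?_, ?_⟩
    · intro x hx
      rw [Finset.mem_map] at hx
      obtain ⟨v, -, rfl⟩ := hx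
      exact Finset.mem_range.mpr v.isLt
    · rw [Finset.card_map, hc]
    · intro u hu v hv huv
      rw [Finset.mem_map] at hu hv
      obtain ⟨u', hu', rfl⟩ := hu
      obtain ⟨v', hv', rfl⟩ := hv
      have hne : u' ≠ v' := fun h => by subst h; exact lt_irrefl _ huv
      obtain ⟨e, he⟩ := hcl u' hu' v' hv' hne
      have hlt : ((edOf E hE e).1 : ℕ) < ((edOf E hE e).2 : ℕ) :=
        (hE _ (List.get_mem E e)).1
      rw [Sym2.eq_iff] at he
      rcases he with ⟨h1, h2⟩ | ⟨h1, h2⟩
      · have : E.get e = ((u' : ℕ), (v' : ℕ)) := by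
          rw [← h1, ← h2]; rfl
        change ((u' : ℕ), (v' : ℕ)) ∈ E
        rw [← this]
        exact List.get_mem E e
      · exfalso
        rw [h1, h2] at hlt
        change (u' : ℕ) < (v' : ℕ) at huv
        omega

end

/-- **Correctness of the reduction**, for the list-encoded graph. -/
theorem graph_correct (n : ℕ) (E : List (ℕ × ℕ)) (k : ℕ) (hnd : E.Nodup)
    (hE : ∀ p ∈ E, p.1 < p.2 ∧ p.2 < n) (hk : 4 ≤ k) (hkn : k + 1 ≤ n)
    (hm : k.choose 2 < E.length) :
    IsRigid (graph n E k) ∧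
      (HasClique n E k ↔ coGirth (graph n E k) ≤ E.length - k.choose 2) := by
  obtain ⟨n₀, rfl⟩ : ∃ n₀, n = n₀ + 1 := ⟨n - 1, by omega⟩
  have hed : ∀ e, (edOf E hE e).1 ≠ (edOf E hE e).2 := by
    intro e h
    have h1 := congrArg Fin.val h
    have h2 := (hE _ (List.get_mem E e)).1
    simp only [edOf] at h1
    omega
  have hinj : ∀ e e', s((edOf E hE e).1, (edOf E hE e).2) =
      s((edOf E hE e').1, (edOf E hE e').2) → e = e' := by
    intro e e' h
    have h1 := (hE _ (List.get_mem E e)).1
    have h2 := (hE _ (List.get_mem E e')).1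
    rw [Sym2.eq_iff] at h
    have h3 : E.get e = E.get e' := by
      rcases h with ⟨a, b⟩ | ⟨a, b⟩
      · have a' := congrArg Fin.val a
        have b' := congrArg Fin.val b
        exact Prod.ext a' b'
      · exfalso
        have a' := congrArg Fin.val a
        have b' := congrArg Fin.val b
        simp only [edOf] at a' b'
        omega
    exact (List.nodup_iff_injective_get.mp hnd) h3
  have e := graphIso (k := k) hE (by omega : 1 ≤ n₀)
  refine ⟨(isRigid_iso e).mp (isRigid_redGraph _ hed hinj hk (by omega) hm), ?_⟩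
  rw [← coGirth_iso e, hasClique_iff hE]
  exact (coGirth_le_iff _ hed hinj hk (by omega) hm).symm

end Pool.Agent.Helper77.CoGirth
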