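import Pool.Agent.Helper77.CoGirth.Rank
import Mathlib.Combinatorics.Nullstellensatz
import Mathlib.LinearAlgebra.Matrix.AbsoluteValue
import Mathlib.NumberTheory.Bertrand

/-!
# A short certificate for rigidity in the plane

`G` is rigid iff for some modulus `m` and some realisation `p` modulo `m` the rigidity matrix has
`r = min (n choose 2) (2 n - 3)` rows which are independent modulo `m`, witnessed by a right
inverse `Z`.
-/

set_option autoImplicit false

namespace Pool.Agent.Helper77.CoGirth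

open MvPolynomial Matrix

/-- A matrix of rank at least `r` over a field has `r` linearly independent rows. -/
theorem exists_rows {K m n : Type*} [Field K] [Fintype m] [Fintype n]
    (A : Matrix m n K) {r : ℕ} (h : r ≤ A.rank) :
    ∃ f : Fin r → m, LinearIndependent K (fun i => A.row (f i)) := by
  obtain ⟨κ, a, ha, hspan, hli⟩ := exists_linearIndependent' K A.row
  have : Finite κ := Finite.of_injective a ha
  have := Fintype.ofFinite κ
  rw [Matrix.rank_eq_finrank_span_row, ← hspan, finrank_span_eq_card hli] at h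
  obtain ⟨e⟩ : Nonempty (Fin r ↪ κ) :=
    Function.Embedding.nonempty_of_card_le (by simpa using h)
  exact ⟨fun i => a (e i), hli.comp e e.injective⟩

theorem exists_minor {K m n : Type*} [Field K] [Fintype m] [Fintype n]
    (A : Matrix m n K) {r : ℕ} (h : r ≤ A.rank) :
    ∃ (f : Fin r → m) (g : Fin r → n), (A.submatrix f g).det ≠ 0 := by
  obtain ⟨f, hf⟩ := exists_rows A h
  have hf' : LinearIndependent K (A.submatrix f id).row := hf
  have h1 : (A.submatrix f id).rank = r := by
    rw [hf'.rank_matrix]; simp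
  have h2 : r ≤ ((A.submatrix f id)ᵀ).rank := by
    rw [Matrix.rank_transpose, h1]
  obtain ⟨g, hg⟩ := exists_rows _ h2
  refine ⟨f, g, ?_⟩
  have h3 : LinearIndependent K ((A.submatrix f g)ᵀ).row := hg
  have h4 : IsUnit ((A.submatrix f g)ᵀ) := Matrix.linearIndependent_rows_iff_isUnit.mp h3
  rw [Matrix.isUnit_iff_isUnit_det, Matrix.det_transpose] at h4
  exact h4.ne_zero

/-- The entry of the row of the pair `(u, v)` in the column `wc`, over any commutative ring. -/
def entryR {R : Type*} [CommRing R] {V : Type*} [DecidableEq V] (x : V × Fin 2 → R) (u v : V)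
    (wc : V × Fin 2) : R :=
  (if wc.1 = u then x (u, wc.2) - x (v, wc.2) else 0) +
    (if wc.1 = v then x (v, wc.2) - x (u, wc.2) else 0)

theorem map_entryR {R S : Type*} [CommRing R] [CommRing S] {V : Type*} [DecidableEq V]
    (φ : R →+* S) (x : V × Fin 2 → R) (u v : V) (wc : V × Fin 2) :
    φ (entryR x u v wc) = entryR (fun w => φ (x w)) u v wc := by
  unfold entryR
  split_ifs <;> simp

theorem sum_entryR {R : Type*} [CommRing R] {V : Type*} [DecidableEq V] [Fintype V]
    (x : V × Fin 2 → R) (u v : V) (s : V × Fin 2 → R) :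
    ∑ wc, entryR x u v wc * s wc = ∑ c : Fin 2, (x (u, c) - x (v, c)) * (s (u, c) - s (v, c)) := by
  rw [Fintype.sum_prod_type, Finset.sum_comm]
  refine Finset.sum_congr rfl fun c _ => ?_
  have : ∀ w : V, entryR x u v (w, c) * s (w, c) =
      (if w = u then (x (u, c) - x (v, c)) * s (u, c) else 0) +
        (if w = v then (x (v, c) - x (u, c)) * s (v, c) else 0) := by
    intro w
    unfold entryR
    by_cases h1 : w = u
    · subst h1
      by_cases h2 : w = v
      · subst h2; simp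
      · simp [h2]
    · by_cases h2 : w = v
      · subst h2; simp [h1]
      · simp [h1, h2]
  simp only [this, Finset.sum_add_distrib, Finset.sum_ite_eq', Finset.mem_univ, if_true]
  ring

theorem entryR_real {V : Type*} [DecidableEq V] (q : V → Fin 2 → ℝ) {u v : V} (h : u ≠ v)
    (wc : V × Fin 2) :
    entryR (fun w => q w.1 w.2) u v wc = rigidityEntry q s(u, v) wc.1 wc.2 := by
  rw [rigidityEntry_mk q h]
  unfold entryR
  split_ifs <;> rfl

theorem degreeOf_entryR_le {V : Type*} [DecidableEq V] (u v : V)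
    (wc i : V × Fin 2) : degreeOf i (entryR (fun w => (X w : MvPolynomial (V × Fin 2) ℤ)) u v wc)
      ≤ 1 := by
  have hX : ∀ a b : V × Fin 2, degreeOf i (X a - X b : MvPolynomial (V × Fin 2) ℤ) ≤ 1 := by
    intro a b
    refine (degreeOf_sub_le _ _ _).trans ?_
    rw [degreeOf_X, degreeOf_X]
    split_ifs <;> simp
  unfold entryR
  refine (degreeOf_add_le _ _ _).trans (max_le ?_ ?_) <;> split_ifs <;> first | exact hX _ _ | simp

theorem degreeOf_det_le {σ : Type*} {r : ℕ} (M : Matrix (Fin r) (Fin r) (MvPolynomial σ ℤ)) (i : σ)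
    (h : ∀ a b, degreeOf i (M a b) ≤ 1) : degreeOf i M.det ≤ r := by
  rw [Matrix.det_apply]
  refine (degreeOf_sum_le _ _ _).trans (Finset.sup_le fun τ _ => ?_)
  have h1 : degreeOf i (∏ a, M (τ a) a) ≤ r := by
    refine (degreeOf_prod_le _ _ _).trans ?_
    refine (Finset.sum_le_sum fun a _ => h (τ a) a).trans ?_
    simp
  rcases Int.units_eq_one_or (Equiv.Perm.sign τ) with h2 | h2
  · rw [h2, one_smul]; exact h1
  · rw [h2, Units.neg_smul, one_smul, degreeOf_neg]; exact h1

theorem IsGeneric.aeval_ne_zero {V : Type*} {q : V → Fin 2 → ℝ} (hq : IsGeneric q)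
    {P : MvPolynomial (V × Fin 2) ℤ} (hP : P ≠ 0) :
    aeval (fun w : V × Fin 2 => q w.1 w.2) P ≠ 0 := by
  have h1 : AlgebraicIndependent ℤ (fun w : V × Fin 2 => q w.1 w.2) :=
    AlgebraicIndependent.restrictScalars (K := ℚ)
      (RingHom.injective_int _) hq
  intro h
  exact hP (h1 (by rw [h, map_zero]))

/-- The bound for the modulus. -/
def certBound (n : ℕ) : ℕ := 2 ^ (8 * n ^ 2 + 2)

/-- The generic rank demanded by rigidity. -/
def rigRank (n : ℕ) : ℕ := min (n.choose 2) (2 * n - 3)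

theorem rigRank_le (n : ℕ) : rigRank n ≤ 2 * n := by
  unfold rigRank; omega

/-- The conditions on a certificate `(m, p, S, Z)`. -/
def IsCert {n : ℕ} (G : SimpleGraph (Fin n)) (m : ℕ) (p : Fin n → Fin 2 → ℕ)
    (S : Fin (rigRank n) → Fin n × Fin n) (Z : Fin (rigRank n) → Fin n → Fin 2 → ℕ) : Prop :=
  2 ≤ m ∧ m < certBound n ∧ (∀ v c, p v c < m) ∧ (∀ j v c, Z j v c < m) ∧
    (∀ i, G.Adj (S i).1 (S i).2) ∧
    ∀ i j, (∑ c : Fin 2, (p (S i).1 c * Z j (S i).1 c + p (S i).2 c * Z j (S i).2 c)) % m =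
      ((∑ c : Fin 2, (p (S i).1 c * Z j (S i).2 c + p (S i).2 c * Z j (S i).1 c)) +
        if i = j then 1 else 0) % m

theorem cert_modEq_iff {m a : ℕ} {x y u v : Fin 2 → ℕ} :
    (∑ c : Fin 2, (x c * u c + y c * v c)) % m =
      ((∑ c : Fin 2, (x c * v c + y c * u c)) + a) % m ↔
    ∑ c : Fin 2, ((x c : ZMod m) - y c) * ((u c : ZMod m) - v c) = a := by
  rw [← Nat.ModEq, ← ZMod.natCast_eq_natCast_iff]
  push_cast
  rw [← sub_eq_zero, ← sub_eq_zero (b := (a : ZMod m))]
  simp only [Fin.sum_univ_two]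
  constructor <;> intro h <;> linear_combination h

theorem isRigid_of_cert {n : ℕ} {G : SimpleGraph (Fin n)} {m : ℕ} {p : Fin n → Fin 2 → ℕ}
    {S : Fin (rigRank n) → Fin n × Fin n} {Z : Fin (rigRank n) → Fin n → Fin 2 → ℕ}
    (h : IsCert G m p S Z) : IsRigid G := by
  intro q hq
  obtain ⟨hm, -, -, -, hadj, heq⟩ := h
  have hmm : Fact (1 < m) := ⟨hm⟩
  set A : Matrix (Fin (rigRank n)) (Fin n × Fin 2) (MvPolynomial (Fin n × Fin 2) ℤ) :=
    Matrix.of fun i wc => entryR (fun w => X w) (S i).1 (S i).2 wc with hA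
  set Zm : Matrix (Fin n × Fin 2) (Fin (rigRank n)) (MvPolynomial (Fin n × Fin 2) ℤ) :=
    Matrix.of fun wc j => C (Z j wc.1 wc.2 : ℤ) with hZm
  have hdet : (A * Zm).det ≠ 0 := by
    intro h0
    let φ : MvPolynomial (Fin n × Fin 2) ℤ →+* ZMod m :=
      eval₂Hom (Int.castRingHom (ZMod m)) (fun w => (p w.1 w.2 : ZMod m))
    have h1 : φ (A * Zm).det = 1 := by
      rw [RingHom.map_det]
      have h2 : φ.mapMatrix (A * Zm) = 1 := by
        ext i j
        have h3 := cert_modEq_iff.mp (heq i j)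
        have h4 : φ.mapMatrix (A * Zm) i j =
            ∑ wc, entryR (fun w => (p w.1 w.2 : ZMod m)) (S i).1 (S i).2 wc *
              (Z j wc.1 wc.2 : ZMod m) := by
          rw [RingHom.mapMatrix_apply, Matrix.map_apply, Matrix.mul_apply, map_sum]
          refine Finset.sum_congr rfl fun wc _ => ?_
          rw [map_mul, hA, hZm, Matrix.of_apply, Matrix.of_apply, map_entryR]
          simp [φ]
        rw [h4, sum_entryR, h3, Matrix.one_apply]
        split_ifs <;> simp
      rw [h2, Matrix.det_one]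
    rw [h0, map_zero] at h1
    exact zero_ne_one h1
  have h5 := hq.aeval_ne_zero hdet
  have h6 : (aeval (fun w : Fin n × Fin 2 => q w.1 w.2)) (A * Zm).det =
      ((Matrix.of fun i wc => entryR (fun w => q w.1 w.2) (S i).1 (S i).2 wc :
        Matrix (Fin (rigRank n)) (Fin n × Fin 2) ℝ) *
        (Matrix.of fun wc j => ((Z j wc.1 wc.2 : ℕ) : ℝ) :
          Matrix (Fin n × Fin 2) (Fin (rigRank n)) ℝ)).det := by
    have h7 := RingHom.map_det
      ((aeval (fun w : Fin n × Fin 2 => q w.1 w.2) :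
        MvPolynomial (Fin n × Fin 2) ℤ →ₐ[ℤ] ℝ) : MvPolynomial (Fin n × Fin 2) ℤ →+* ℝ) (A * Zm)
    have h8 : (aeval (fun w : Fin n × Fin 2 => q w.1 w.2)) (A * Zm).det =
      ((aeval (fun w : Fin n × Fin 2 => q w.1 w.2) :
        MvPolynomial (Fin n × Fin 2) ℤ →ₐ[ℤ] ℝ) : MvPolynomial (Fin n × Fin 2) ℤ →+* ℝ)
        (A * Zm).det := rfl
    rw [h8, h7]
    congr 1
    ext i j
    rw [RingHom.mapMatrix_apply, Matrix.map_apply, Matrix.mul_apply, Matrix.mul_apply, map_sum]
    refine Finset.sum_congr rfl fun wc _ => ?_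
    rw [map_mul, hA, hZm, Matrix.of_apply, Matrix.of_apply, map_entryR]
    simp
  rw [h6] at h5
  have h9 := Matrix.rank_of_isUnit _ ((Matrix.isUnit_iff_isUnit_det _).mpr (isUnit_iff_ne_zero.mpr h5))
  have h10 := Matrix.rank_mul_le_left
    (Matrix.of fun i wc => entryR (fun w => q w.1 w.2) (S i).1 (S i).2 wc :
        Matrix (Fin (rigRank n)) (Fin n × Fin 2) ℝ)
        (Matrix.of fun wc j => ((Z j wc.1 wc.2 : ℕ) : ℝ) :
          Matrix (Fin n × Fin 2) (Fin (rigRank n)) ℝ)
  rw [h9] at h10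
  have h11 : (Matrix.of fun i wc => entryR (fun w => q w.1 w.2) (S i).1 (S i).2 wc :
        Matrix (Fin (rigRank n)) (Fin n × Fin 2) ℝ) =
      (rigidityMatrix G q).submatrix
        (fun i => (⟨s((S i).1, (S i).2), hadj i⟩ : G.edgeSet)) id := by
    ext i wc
    rw [Matrix.of_apply, entryR_real q (hadj i).ne]
    rfl
  rw [h11] at h10
  have h12 := Matrix.rank_submatrix_le (rigidityMatrix G q)
    (fun i => (⟨s((S i).1, (S i).2), hadj i⟩ : G.edgeSet)) id
  have h13 := h10.trans h12
  rw [Fintype.card_fin] at h13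
  rw [Fintype.card_fin]
  exact h13

theorem exists_cert {n : ℕ} {G : SimpleGraph (Fin n)} (h : IsRigid G) :
    ∃ (m : ℕ) (p : Fin n → Fin 2 → ℕ) (S : Fin (rigRank n) → Fin n × Fin n)
      (Z : Fin (rigRank n) → Fin n → Fin 2 → ℕ), IsCert G m p S Z := by
  classical
  obtain ⟨q, hq⟩ := exists_generic (Fin n)
  have h1 : rigRank n ≤ (rigidityMatrix G q).rank := by
    have := h q hq
    simpa [rigRank] using this
  obtain ⟨f, g, hfg⟩ := exists_minor (rigidityMatrix G q) h1
  have hS : ∀ i : Fin (rigRank n), ∃ uv : Fin n × Fin n, G.Adj uv.1 uv.2 ∧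
      ((f i : G.edgeSet) : Sym2 (Fin n)) = s(uv.1, uv.2) := by
    intro i
    obtain ⟨e, he⟩ := f i
    induction e with
    | _ u v => exact ⟨(u, v), he, rfl⟩
  choose S hS1 hS2 using hS
  set M : Matrix (Fin (rigRank n)) (Fin (rigRank n)) (MvPolynomial (Fin n × Fin 2) ℤ) :=
    Matrix.of fun i j => entryR (fun w => X w) (S i).1 (S i).2 (g j) with hM
  have hMdet : M.det ≠ 0 := by
    intro h0
    apply hfg
    have h7 := RingHom.map_det
      ((aeval (fun w : Fin n × Fin 2 => q w.1 w.2) :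
        MvPolynomial (Fin n × Fin 2) ℤ →ₐ[ℤ] ℝ) : MvPolynomial (Fin n × Fin 2) ℤ →+* ℝ) M
    rw [h0, map_zero] at h7
    rw [h7]
    congr 1
    ext i j
    rw [RingHom.mapMatrix_apply, Matrix.map_apply, hM, Matrix.of_apply, map_entryR,
      Matrix.submatrix_apply, rigidityMatrix, Matrix.of_apply, hS2 i]
    rw [← entryR_real q (hS1 i).ne]
    simp
  have hdeg : ∀ w, degreeOf w M.det < ((Finset.range (rigRank n + 1)).image
      (fun a : ℕ => (a : ℤ))).card := by
    intro w
    rw [Finset.card_image_of_injective _ Nat.cast_injective, Finset.card_range, Nat.lt_succ_iff]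
    exact degreeOf_det_le M w fun a b => degreeOf_entryR_le _ _ _ _
  have hx : ∃ x : Fin n × Fin 2 → ℤ, (∀ w, x w ∈ (Finset.range (rigRank n + 1)).image
      (fun a : ℕ => (a : ℤ))) ∧ eval x M.det ≠ 0 := by
    by_contra hcon
    push Not at hcon
    exact hMdet (eq_zero_of_eval_zero_at_prod_finset M.det _ hdeg hcon)
  obtain ⟨x, hx1, hx2⟩ := hx
  have hx3 : ∀ w, ∃ a : ℕ, a ≤ rigRank n ∧ (a : ℤ) = x w := by
    intro w
    obtain ⟨a, ha, ha'⟩ := Finset.mem_image.mp (hx1 w)
    exact ⟨a, by simpa [Nat.lt_succ_iff] using ha, ha'⟩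
  choose p hp1 hp2 using hx3
  -- the integer minor
  set B : Matrix (Fin (rigRank n)) (Fin (rigRank n)) ℤ :=
    Matrix.of fun i j => entryR x (S i).1 (S i).2 (g j) with hB
  have hBdet : eval x M.det = B.det := by
    rw [RingHom.map_det]
    congr 1
    ext i j
    rw [RingHom.mapMatrix_apply, Matrix.map_apply, hM, Matrix.of_apply, map_entryR, hB,
      Matrix.of_apply]
    simp
  rw [hBdet] at hx2
  have hBabs : |B.det| ≤ ((rigRank n).factorial : ℤ) * (rigRank n : ℤ) ^ (rigRank n) := by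
    have h2 := Matrix.det_le (A := B) (abv := AbsoluteValue.abs) (x := (rigRank n : ℤ)) ?_
    · simpa using h2
    · intro i j
      rw [hB, Matrix.of_apply]
      unfold entryR
      have hd : ∀ a b : Fin n × Fin 2, |x a - x b| ≤ (rigRank n : ℤ) := by
        intro a b
        rw [← hp2 a, ← hp2 b, abs_le]
        have h3 := hp1 a
        have h4 := hp1 b
        constructor <;> omega
      have hne := (hS1 i).ne
      simp only [AbsoluteValue.abs_apply]
      by_cases h3 : (g j).1 = (S i).1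
      · rw [if_pos h3, if_neg (fun h4 => hne (h3.symm.trans h4)), add_zero]; exact hd _ _
      · rw [if_neg h3, zero_add]
        split_ifs with h4
        · exact hd _ _
        · simp
  have hbound : (rigRank n).factorial * (rigRank n) ^ (rigRank n) ≤ 2 ^ (8 * n ^ 2) := by
    have h2 : (rigRank n).factorial ≤ (rigRank n) ^ (rigRank n) := Nat.factorial_le_pow _
    have h3 : rigRank n ≤ 2 ^ (2 * n) := (rigRank_le n).trans (Nat.lt_two_pow_self).le
    calc (rigRank n).factorial * (rigRank n) ^ (rigRank n)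
        ≤ (rigRank n) ^ (rigRank n) * (rigRank n) ^ (rigRank n) := Nat.mul_le_mul_right _ h2
      _ = (rigRank n) ^ (2 * rigRank n) := by rw [← pow_add]; congr 1; ring
      _ ≤ (2 ^ (2 * n)) ^ (2 * rigRank n) := Nat.pow_le_pow_left h3 _
      _ ≤ (2 ^ (2 * n)) ^ (2 * (2 * n)) :=
          Nat.pow_le_pow_right (by positivity) (Nat.mul_le_mul_left _ (rigRank_le n))
      _ = 2 ^ (8 * n ^ 2) := by rw [← pow_mul]; congr 1; ring
  obtain ⟨m, hmp, hm1, hm2⟩ := Nat.exists_prime_lt_and_le_two_mul (2 ^ (8 * n ^ 2)) (by positivity)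
  have : Fact m.Prime := ⟨hmp⟩
  have hrm : rigRank n < m := by
    rcases Nat.eq_zero_or_pos n with h0 | h0
    · subst h0
      have : rigRank 0 = 0 := rfl
      rw [this]; exact hmp.pos
    · have h3 : rigRank n < 2 ^ (8 * n ^ 2) :=
        lt_of_le_of_lt ((rigRank_le n).trans (by nlinarith)) (Nat.lt_two_pow_self)
      omega
  -- the minor is invertible modulo `m`
  have hdm : ((B.det : ℤ) : ZMod m) ≠ 0 := by
    rw [Ne, ZMod.intCast_zmod_eq_zero_iff_dvd]
    intro hdvd
    have h3 := Int.le_of_dvd (abs_pos.mpr hx2) ((dvd_abs _ _).mpr hdvd)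
    have h4 : |B.det| ≤ (2 ^ (8 * n ^ 2) : ℕ) := hBabs.trans (by exact_mod_cast hbound)
    omega
  set Bm : Matrix (Fin (rigRank n)) (Fin (rigRank n)) (ZMod m) :=
    (Int.castRingHom (ZMod m)).mapMatrix B with hBm
  have hBmdet : IsUnit Bm.det := by
    rw [hBm, ← RingHom.map_det]
    exact isUnit_iff_ne_zero.mpr hdm
  have hinv := Matrix.mul_nonsing_inv Bm hBmdet
  refine ⟨m, fun v c => p (v, c), S,
    fun j v c => (∑ k, if g k = (v, c) then Bm⁻¹ k j else 0).val, hmp.two_le, ?_, ?_, ?_, hS1, ?_⟩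
  · unfold certBound
    have : 2 ^ (8 * n ^ 2 + 2) = 4 * 2 ^ (8 * n ^ 2) := by rw [pow_add]; ring
    have h3 : 0 < 2 ^ (8 * n ^ 2) := by positivity
    omega
  · intro v c
    exact (hp1 _).trans_lt hrm
  · intro j v c
    exact ZMod.val_lt _
  · intro i j
    rw [cert_modEq_iff]
    simp only [ZMod.natCast_val, ZMod.cast_id', id_eq]
    have h3 := sum_entryR (fun w => (p w : ZMod m)) (S i).1 (S i).2
      (fun w => ∑ k, if g k = w then Bm⁻¹ k j else 0)
    rw [← h3]
    have h4 : ∀ wc, entryR (fun w => (p w : ZMod m)) (S i).1 (S i).2 wc *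
        (∑ k, if g k = wc then Bm⁻¹ k j else 0) =
        ∑ k, if g k = wc then entryR (fun w => (p w : ZMod m)) (S i).1 (S i).2 wc * Bm⁻¹ k j
          else 0 := by
      intro wc
      rw [Finset.mul_sum]
      refine Finset.sum_congr rfl fun k _ => ?_
      split_ifs <;> simp
    rw [Finset.sum_congr rfl fun wc _ => h4 wc, Finset.sum_comm]
    have h5 : ∀ k, (∑ wc, if g k = wc then
        entryR (fun w => (p w : ZMod m)) (S i).1 (S i).2 wc * Bm⁻¹ k j else 0) =
        Bm i k * Bm⁻¹ k j := by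
      intro k
      rw [Finset.sum_ite_eq, if_pos (Finset.mem_univ _)]
      congr 1
      rw [hBm, RingHom.mapMatrix_apply, Matrix.map_apply, hB, Matrix.of_apply, map_entryR]
      congr 1
      funext w
      rw [← hp2 w]
      simp
    rw [Finset.sum_congr rfl fun k _ => h5 k, ← Matrix.mul_apply, hinv, Matrix.one_apply]
    split_ifs <;> simp

/-- Rigidity in the plane has certificates of polynomial size. -/
theorem isRigid_iff_cert {n : ℕ} (G : SimpleGraph (Fin n)) :
    IsRigid G ↔ ∃ (m : ℕ) (p : Fin n → Fin 2 → ℕ) (S : Fin (rigRank n) → Fin n × Fin n)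
      (Z : Fin (rigRank n) → Fin n → Fin 2 → ℕ), IsCert G m p S Z :=
  ⟨exists_cert, fun ⟨_, _, _, _, h⟩ => isRigid_of_cert h⟩

end Pool.Agent.Helper77.CoGirth
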