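import Pool.Agent.Helper77.CoGirth.Special

set_option autoImplicit false

namespace Pool.Agent.Helper77.CoGirth

/-- A realisation whose pinned motions vanish certifies rigidity. -/
theorem isRigid_of_special {V : Type*} [Fintype V] (G : SimpleGraph V) (q : V → Fin 2 → ℝ)
    (a b : V)
    (h : ∀ s : V × Fin 2 → ℝ, s ∈ motions G q → s (a, 0) = 0 → s (a, 1) = 0 → s (b, 0) = 0 →
      s = 0) : IsRigid G := by
  intro p hp
  have h1 := rank_le_rank_of_isGeneric G hp q
  have h2 := rank_add_finrank_motions G q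
  have h3 : Module.finrank ℝ (motions G q) ≤ 3 := by
    let L : motions G q →ₗ[ℝ] (Fin 3 → ℝ) :=
      { toFun := fun s => ![s.1 (a, 0), s.1 (a, 1), s.1 (b, 0)]
        map_add' := by
          intro x y
          funext i
          fin_cases i <;> simp
        map_smul' := by
          intro x y
          funext i
          fin_cases i <;> simp }
    have hL : Function.Injective L := by
      rw [injective_iff_map_eq_zero]
      intro s hs
      have e0 := congrFun hs 0
      have e1 := congrFun hs 1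
      have e2 := congrFun hs 2
      simp only [L, LinearMap.coe_mk, AddHom.coe_mk, Matrix.cons_val_zero, Pi.zero_apply,
        Matrix.cons_val_one, Matrix.cons_val_two] at e0 e1 e2
      exact Subtype.ext (h s.1 s.2 e0 e1 e2)
    have := LinearMap.finrank_le_finrank_of_injective hL
    simpa using this
  have h4 : 2 * Fintype.card V - 3 ≤ (rigidityMatrix G p).rank := by omega
  exact (min_le_right _ _).trans h4

/-- The scalar product condition imposed by a bar on an infinitesimal motion. -/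
def barOK {V : Type*} (q : V → Fin 2 → ℝ) (s : V × Fin 2 → ℝ) (u v : V) : Prop :=
  (q u 0 - q v 0) * (s (u, 0) - s (v, 0)) + (q u 1 - q v 1) * (s (u, 1) - s (v, 1)) = 0

theorem barOK_symm {V : Type*} {q : V → Fin 2 → ℝ} {s : V × Fin 2 → ℝ} {u v : V}
    (h : barOK q s u v) : barOK q s v u := by
  unfold barOK at *; linarith

theorem mem_motions' {V : Type*} [Fintype V] {G : SimpleGraph V} {p : V → Fin 2 → ℝ}
    {s : V × Fin 2 → ℝ} :
    s ∈ motions G p ↔ ∀ u v, G.Adj u v → barOK p s u v := by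
  rw [mem_motions]
  simp only [Fin.sum_univ_two, barOK]

/-- The signed area condition: `u, v, w` not collinear. -/
def cross {V : Type*} (q : V → Fin 2 → ℝ) (u v w : V) : ℝ :=
  (q v 0 - q u 0) * (q w 1 - q u 1) - (q v 1 - q u 1) * (q w 0 - q u 0)

/-- `s` agrees on `B` with a trivial infinitesimal motion. -/
def TrivialOn {V : Type*} (q : V → Fin 2 → ℝ) (s : V × Fin 2 → ℝ) (B : Finset V) : Prop :=
  ∃ α β ω : ℝ, ∀ u ∈ B, s (u, 0) = α - ω * q u 1 ∧ s (u, 1) = β + ω * q u 0

theorem extend_trivial {V : Type*} {q : V → Fin 2 → ℝ} {s : V × Fin 2 → ℝ} {u v w : V}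
    {α β ω : ℝ} (hu : s (u, 0) = α - ω * q u 1 ∧ s (u, 1) = β + ω * q u 0)
    (hv : s (v, 0) = α - ω * q v 1 ∧ s (v, 1) = β + ω * q v 0)
    (h1 : barOK q s w u) (h2 : barOK q s w v) (hc : cross q w u v ≠ 0) :
    s (w, 0) = α - ω * q w 1 ∧ s (w, 1) = β + ω * q w 0 := by
  unfold barOK at h1 h2
  unfold cross at hc
  rw [hu.1, hu.2] at h1
  rw [hv.1, hv.2] at h2
  set d0 := s (w, 0) - (α - ω * q w 1) with hd0
  set d1 := s (w, 1) - (β + ω * q w 0) with hd1
  have k1 : (q w 0 - q u 0) * d0 + (q w 1 - q u 1) * d1 = 0 := by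
    rw [hd0, hd1]; linear_combination h1
  have k2 : (q w 0 - q v 0) * d0 + (q w 1 - q v 1) * d1 = 0 := by
    rw [hd0, hd1]; linear_combination h2
  have z0 : d0 = 0 := by
    have : ((q u 0 - q w 0) * (q v 1 - q w 1) - (q u 1 - q w 1) * (q v 0 - q w 0)) * d0 = 0 := by
      linear_combination (q w 1 - q v 1) * k1 - (q w 1 - q u 1) * k2
    exact (mul_eq_zero.mp this).resolve_left hc
  have z1 : d1 = 0 := by
    have : ((q u 0 - q w 0) * (q v 1 - q w 1) - (q u 1 - q w 1) * (q v 0 - q w 0)) * d1 = 0 := by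
      linear_combination -(q w 0 - q v 0) * k1 + (q w 0 - q u 0) * k2
    exact (mul_eq_zero.mp this).resolve_left hc
  constructor
  · linarith
  · linarith

theorem base_trivial {V : Type*} {q : V → Fin 2 → ℝ} {s : V × Fin 2 → ℝ} {u v : V}
    (h : barOK q s u v) (hne : q u ≠ q v) :
    ∃ α β ω : ℝ, (s (u, 0) = α - ω * q u 1 ∧ s (u, 1) = β + ω * q u 0) ∧
      (s (v, 0) = α - ω * q v 1 ∧ s (v, 1) = β + ω * q v 0) := by
  unfold barOK at h
  have hd : (q u 0 - q v 0) ^ 2 + (q u 1 - q v 1) ^ 2 ≠ 0 := by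
    intro h0
    have a0 : q u 0 - q v 0 = 0 := by nlinarith [sq_nonneg (q u 0 - q v 0), sq_nonneg (q u 1 - q v 1)]
    have a1 : q u 1 - q v 1 = 0 := by nlinarith [sq_nonneg (q u 0 - q v 0), sq_nonneg (q u 1 - q v 1)]
    apply hne
    funext c
    fin_cases c
    · simpa using sub_eq_zero.mp a0
    · simpa using sub_eq_zero.mp a1
  set D := (q u 0 - q v 0) ^ 2 + (q u 1 - q v 1) ^ 2 with hD
  set ω := (-(q u 1 - q v 1) * (s (u, 0) - s (v, 0)) + (q u 0 - q v 0) * (s (u, 1) - s (v, 1))) / D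
    with hω
  have hωD : ω * D =
      -(q u 1 - q v 1) * (s (u, 0) - s (v, 0)) + (q u 0 - q v 0) * (s (u, 1) - s (v, 1)) := by
    rw [hω]; field_simp
  have e0 : s (u, 0) - s (v, 0) = -ω * (q u 1 - q v 1) := by
    have : D * ((s (u, 0) - s (v, 0)) + ω * (q u 1 - q v 1)) = 0 := by
      rw [hD] at hωD ⊢
      linear_combination (q u 1 - q v 1) * hωD + (q u 0 - q v 0) * h
    have := (mul_eq_zero.mp this).resolve_left hd
    linarith
  have e1 : s (u, 1) - s (v, 1) = ω * (q u 0 - q v 0) := by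
    have : D * ((s (u, 1) - s (v, 1)) - ω * (q u 0 - q v 0)) = 0 := by
      rw [hD] at hωD ⊢
      linear_combination -(q u 0 - q v 0) * hωD + (q u 1 - q v 1) * h
    have := (mul_eq_zero.mp this).resolve_left hd
    linarith
  refine ⟨s (u, 0) + ω * q u 1, s (u, 1) - ω * q u 0, ω, ⟨?_, ?_⟩, ⟨?_, ?_⟩⟩
  · ring
  · ring
  · linarith
  · linarith

end Pool.Agent.Helper77.CoGirth
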