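import Pool.Agent.Helper77.CoGirth.Body

set_option autoImplicit false

namespace Pool.Agent.Helper77.CoGirth

open scoped Classical in
/-- Lemma A: a complete graph on `B` in general position stays infinitesimally rigid after the
deletion of at most `|B| - 3` edges. -/
theorem trivialOn_of_card {V : Type*} (q : V → Fin 2 → ℝ) (s : V × Fin 2 → ℝ)
    (F : Finset (Sym2 V)) (n : ℕ) :
    ∀ B : Finset V, B.card = n + 3 →
      (F.filter (fun e => ∀ x ∈ e, x ∈ B)).card ≤ n →
      (∀ u ∈ B, ∀ v ∈ B, ∀ w ∈ B, u ≠ v → v ≠ w → u ≠ w → cross q u v w ≠ 0) →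
      (∀ u ∈ B, ∀ v ∈ B, u ≠ v → s(u, v) ∉ F → barOK q s u v) →
      TrivialOn q s B := by
  induction n with
  | zero =>
    intro B hB hF hc hb
    have hF0 : F.filter (fun e => ∀ x ∈ e, x ∈ B) = ∅ := by
      rw [← Finset.card_eq_zero]; omega
    have hnot : ∀ u ∈ B, ∀ v ∈ B, s(u, v) ∉ F := by
      intro u hu v hv hmem
      have : s(u, v) ∈ F.filter (fun e => ∀ x ∈ e, x ∈ B) := by
        rw [Finset.mem_filter]
        refine ⟨hmem, ?_⟩
        intro x hx
        rw [Sym2.mem_iff] at hx
        rcases hx with rfl | rfl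
        · exact hu
        · exact hv
      rw [hF0] at this
      simp at this
    obtain ⟨u, v, w, huv, huw, hvw, rfl⟩ := Finset.card_eq_three.mp hB
    have mu : u ∈ ({u, v, w} : Finset V) := by simp
    have mv : v ∈ ({u, v, w} : Finset V) := by simp
    have mw : w ∈ ({u, v, w} : Finset V) := by simp
    have hne : q u ≠ q v := by
      intro h
      have := hc u mu v mv w mw huv hvw huw
      apply this
      unfold cross
      rw [h]; ring
    obtain ⟨α, β, ω, h1, h2⟩ := base_trivial (hb u mu v mv huv (hnot u mu v mv)) hne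
    refine ⟨α, β, ω, ?_⟩
    intro x hx
    simp only [Finset.mem_insert, Finset.mem_singleton] at hx
    rcases hx with rfl | rfl | rfl
    · exact h1
    · exact h2
    · exact extend_trivial h1 h2 (hb _ mw _ mu huw.symm (hnot _ mw _ mu))
        (hb _ mw _ mv hvw.symm (hnot _ mw _ mv)) (hc _ mw _ mu _ mv huw.symm huv hvw.symm)
  | succ n ih =>
    intro B hB hF hc hb
    -- choose a vertex to delete
    have hex : ∃ w ∈ B, (F.filter (fun e => ∀ x ∈ e, x ∈ B.erase w)).card ≤ n := by
      rcases Finset.eq_empty_or_nonempty (F.filter (fun e => ∀ x ∈ e, x ∈ B)) with h0 | h0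
      · have hBne : B.Nonempty := by rw [← Finset.card_pos]; omega
        obtain ⟨w, hw⟩ := hBne
        refine ⟨w, hw, ?_⟩
        have : F.filter (fun e => ∀ x ∈ e, x ∈ B.erase w) ⊆
            F.filter (fun e => ∀ x ∈ e, x ∈ B) := by
          intro e he
          rw [Finset.mem_filter] at he ⊢
          exact ⟨he.1, fun x hx => Finset.mem_of_mem_erase (he.2 x hx)⟩
        have := Finset.card_le_card this
        rw [h0, Finset.card_empty] at this
        omega
      · obtain ⟨e, he⟩ := h0
        induction e with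
        | _ a b =>
          have hmem := Finset.mem_filter.mp he
          have ha : a ∈ B := hmem.2 a (Sym2.mem_mk_left a b)
          refine ⟨a, ha, ?_⟩
          have hsub : F.filter (fun e => ∀ x ∈ e, x ∈ B.erase a) ⊆
              (F.filter (fun e => ∀ x ∈ e, x ∈ B)).erase s(a, b) := by
            intro e he'
            rw [Finset.mem_filter] at he'
            rw [Finset.mem_erase, Finset.mem_filter]
            refine ⟨?_, he'.1, fun x hx => Finset.mem_of_mem_erase (he'.2 x hx)⟩
            rintro rfl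
            exact Finset.notMem_erase a B (he'.2 a (Sym2.mem_mk_left a b))
          have h1 := Finset.card_le_card hsub
          rw [Finset.card_erase_of_mem he] at h1
          omega
    obtain ⟨w, hw, hFw⟩ := hex
    have hBw : (B.erase w).card = n + 3 := by
      rw [Finset.card_erase_of_mem hw]; omega
    obtain ⟨α, β, ω, htriv⟩ := ih (B.erase w) hBw hFw
      (fun u hu v hv x hx => hc u (Finset.mem_of_mem_erase hu) v (Finset.mem_of_mem_erase hv) x
        (Finset.mem_of_mem_erase hx))
      (fun u hu v hv => hb u (Finset.mem_of_mem_erase hu) v (Finset.mem_of_mem_erase hv))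
    -- the neighbours of `w`
    have hbad : ((B.erase w).filter (fun u => s(w, u) ∈ F)).card ≤ n + 1 := by
      refine le_trans ?_ hF
      apply Finset.card_le_card_of_injOn (fun u => s(w, u))
      · intro u hu
        have hu := Finset.mem_filter.mp (Finset.mem_coe.mp hu)
        apply Finset.mem_coe.mpr
        rw [Finset.mem_filter]
        refine ⟨hu.2, ?_⟩
        intro x hx
        rw [Sym2.mem_iff] at hx
        rcases hx with rfl | rfl
        · exact hw
        · exact Finset.mem_of_mem_erase hu.1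
      · intro u _ v _ huv
        exact Sym2.congr_right.mp huv
    have hgood : 1 < ((B.erase w).filter (fun u => ¬ s(w, u) ∈ F)).card := by
      have := Finset.card_filter_add_card_filter_not (s := B.erase w) (fun u => s(w, u) ∈ F)
      omega
    obtain ⟨u, hu, v, hv, huv⟩ := Finset.one_lt_card.mp hgood
    rw [Finset.mem_filter] at hu hv
    have huB := Finset.mem_of_mem_erase hu.1
    have hvB := Finset.mem_of_mem_erase hv.1
    have hwu : w ≠ u := (Finset.ne_of_mem_erase hu.1).symm
    have hwv : w ≠ v := (Finset.ne_of_mem_erase hv.1).symm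
    refine ⟨α, β, ω, ?_⟩
    intro x hx
    by_cases hxw : x = w
    · subst hxw
      exact extend_trivial (htriv u hu.1) (htriv v hv.1) (hb _ hw _ huB hwu hu.2)
        (hb _ hw _ hvB hwv hv.2) (hc _ hw _ huB _ hvB hwu huv hwv)
    · exact htriv x (Finset.mem_erase.mpr ⟨hxw, hx⟩)

theorem trivialOn_of_card' {V : Type*} (q : V → Fin 2 → ℝ) (s : V × Fin 2 → ℝ)
    (F : Finset (Sym2 V)) (n : ℕ) (B : Finset V) (hB : B.card = n + 3) (hF : F.card ≤ n)
    (hc : ∀ u ∈ B, ∀ v ∈ B, ∀ w ∈ B, u ≠ v → v ≠ w → u ≠ w → cross q u v w ≠ 0)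
    (hb : ∀ u ∈ B, ∀ v ∈ B, u ≠ v → s(u, v) ∉ F → barOK q s u v) :
    TrivialOn q s B := by
  classical
  refine trivialOn_of_card q s F n B hB ?_ hc hb
  refine le_trans (Finset.card_le_card ?_) hF
  intro e he
  exact (Finset.mem_filter.mp he).1

theorem zero_of_trivialOn {V : Type*} {q : V → Fin 2 → ℝ} {s : V × Fin 2 → ℝ}
    {B : Finset V} (h : TrivialOn q s B) {a b : V} (ha : a ∈ B) (hb : b ∈ B) (hne : q a ≠ q b)
    (ha0 : s (a, 0) = 0) (ha1 : s (a, 1) = 0) (hb0 : s (b, 0) = 0) (hb1 : s (b, 1) = 0) :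
    ∀ u ∈ B, s (u, 0) = 0 ∧ s (u, 1) = 0 := by
  obtain ⟨α, β, ω, h⟩ := h
  have h1 := h a ha
  have h2 := h b hb
  have e1 : ω * (q a 1 - q b 1) = 0 := by linarith [h1.1, h2.1]
  have e2 : ω * (q a 0 - q b 0) = 0 := by linarith [h1.2, h2.2]
  have hω : ω = 0 := by
    by_contra hω
    have a1 := (mul_eq_zero.mp e1).resolve_left hω
    have a0 := (mul_eq_zero.mp e2).resolve_left hω
    apply hne
    funext c
    fin_cases c
    · simpa using sub_eq_zero.mp a0
    · simpa using sub_eq_zero.mp a1
  subst hω
  have hα : α = 0 := by linarith [h1.1]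
  have hβ : β = 0 := by linarith [h1.2]
  subst hα hβ
  intro u hu
  have := h u hu
  constructor
  · linarith [this.1]
  · linarith [this.2]

theorem barOK_of_trivialOn {V : Type*} {q : V → Fin 2 → ℝ} {s : V × Fin 2 → ℝ}
    {B : Finset V} (h : TrivialOn q s B) {a b : V} (ha : a ∈ B) (hb : b ∈ B) :
    barOK q s a b := by
  obtain ⟨α, β, ω, h⟩ := h
  unfold barOK
  rw [(h a ha).1, (h a ha).2, (h b hb).1, (h b hb).2]
  ring

end Pool.Agent.Helper77.CoGirth
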