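import Mathlib

/-!
# Planar rigidity matrix, generic realisations, rigidity and co-girth

These are the definitions of the problem MP_702614_lc.
-/

set_option autoImplicit false

namespace Pool.Agent.Helper77.CoGirth

open scoped Classical in
/-- The entry of the row of the edge `e` in the column `(w, c)` of the planar rigidity matrix:
`p w c - p w' c` if `e = {w, w'}`, and `0` if `w` is not an end of `e`. -/
noncomputable def rigidityEntry {V : Type*} (p : V → Fin 2 → ℝ) (e : Sym2 V) (w : V)
    (c : Fin 2) : ℝ :=
  if h : w ∈ e then p w c - p (Sym2.Mem.other h) c else 0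

/-- The planar rigidity matrix `R(G, p)`: one row per edge, two columns per vertex. -/
noncomputable def rigidityMatrix {V : Type*} (G : SimpleGraph V) (p : V → Fin 2 → ℝ) :
    Matrix G.edgeSet (V × Fin 2) ℝ :=
  Matrix.of fun e wc => rigidityEntry p e.1 wc.1 wc.2

/-- A realisation is generic if its `2|V|` coordinates are algebraically independent over `ℚ`. -/
def IsGeneric {V : Type*} (p : V → Fin 2 → ℝ) : Prop :=
  AlgebraicIndependent ℚ (fun wc : V × Fin 2 => p wc.1 wc.2)

/-- `G` is rigid in the plane: for every generic `p` the rank of `R(G, p)` is at least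
`min (|V| choose 2) (2|V| - 3)`. -/
def IsRigid {V : Type*} [Fintype V] (G : SimpleGraph V) : Prop :=
  ∀ p : V → Fin 2 → ℝ, IsGeneric p →
    min ((Fintype.card V).choose 2) (2 * Fintype.card V - 3) ≤ (rigidityMatrix G p).rank

/-- The co-girth: the least number of edges whose deletion destroys rigidity. -/
noncomputable def coGirth {V : Type*} [Fintype V] (G : SimpleGraph V) : ℕ :=
  sInf {r : ℕ | ∃ F : Finset (Sym2 V), (F : Set (Sym2 V)) ⊆ G.edgeSet ∧ F.card = r ∧
    ¬ IsRigid (G.deleteEdges (F : Set (Sym2 V)))}

end Pool.Agent.Helper77.CoGirth
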