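import Pool.Agent.Helper77.CoGirth.Defs

set_option autoImplicit false

namespace Pool.Agent.Helper77.CoGirth

open Cardinal

/-- A transcendence basis of `ℝ` over `ℚ` is infinite. -/
theorem infinite_of_basis {s : Set ℝ} (hs : IsTranscendenceBasis ℚ ((↑) : s → ℝ)) :
    Infinite s := by
  by_contra hfin
  have hfin' : Finite s := not_infinite_iff_finite.mp hfin
  have halg : Algebra.IsAlgebraic (Algebra.adjoin ℚ (Set.range ((↑) : s → ℝ))) ℝ := hs.isAlgebraic
  have h1 : #ℝ ≤ max #(Algebra.adjoin ℚ (Set.range ((↑) : s → ℝ))) ℵ₀ := by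
    simpa using Algebra.IsAlgebraic.cardinalMk_le_max
      (Algebra.adjoin ℚ (Set.range ((↑) : s → ℝ))) ℝ
  have h2 : #(Algebra.adjoin ℚ (Set.range ((↑) : s → ℝ))) ≤ ℵ₀ := by
    have h3 : #(MvPolynomial s ℚ) = #(Algebra.adjoin ℚ (Set.range ((↑) : s → ℝ))) :=
      Cardinal.mk_congr hs.1.aevalEquiv.toEquiv
    rw [← h3]
    refine (MvPolynomial.cardinalMk_le_max).trans ?_
    simp
  have h4 : #ℝ ≤ ℵ₀ := h1.trans (max_le h2 le_rfl)
  rw [Cardinal.mk_real] at h4
  exact absurd h4 (not_le.mpr Cardinal.aleph0_lt_continuum)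

theorem exists_generic (V : Type*) [Finite V] : ∃ p : V → Fin 2 → ℝ, IsGeneric p := by
  obtain ⟨s, hs⟩ := exists_isTranscendenceBasis ℚ ℝ
  have hinf := infinite_of_basis hs
  obtain ⟨f⟩ : Nonempty ((V × Fin 2) ↪ s) := by
    have : Finite (V × Fin 2) := inferInstance
    obtain ⟨k, ⟨e⟩⟩ := Finite.exists_equiv_fin (V × Fin 2)
    exact ⟨e.toEmbedding.trans (Fin.valEmbedding.trans (Infinite.natEmbedding s))⟩
  refine ⟨fun v c => (f (v, c) : ℝ), ?_⟩
  have := hs.1.comp f f.injective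
  exact this

end Pool.Agent.Helper77.CoGirth
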