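import Pool.Agent.Helper77.CoGirth.Iso

set_option autoImplicit false

namespace Pool.Agent.Helper77.CoGirth

/-! ### The constructed graph as an explicit edge list on natural numbers -/

def rr (n m j i : ℕ) : ℕ := 2 + n + m + j * (n - 1) + i

def heavy (n : ℕ) (E : List (ℕ × ℕ)) (k : ℕ) : List (ℕ × ℕ) :=
  [(0, 1)] ++ (List.range n).map (fun v => (1, 2 + v)) ++
    (List.range E.length).flatMap (fun i =>
      [(2 + n + i, 2 + (E.getD i (0, 0)).1), (2 + n + i, 2 + (E.getD i (0, 0)).2)]) ++
    (List.range (n - k - 1)).flatMap (fun j =>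
      (List.range (n - 1)).flatMap (fun i =>
        [(rr n E.length j i, if i = 0 then 2 else rr n E.length j (i - 1)),
          (rr n E.length j i, 2 + (i + 1))]) ++ [(0, rr n E.length j (n - 2))])

def light (n : ℕ) (E : List (ℕ × ℕ)) : List (ℕ × ℕ) :=
  (List.range E.length).map (fun i => (0, 2 + n + i))

def base (n : ℕ) (E : List (ℕ × ℕ)) (k : ℕ) : ℕ := 2 + n + E.length + (n - k - 1) * (n - 1)

/-- The `t`-th private vertex of the heavy bar number `h`. -/
def priv (n : ℕ) (E : List (ℕ × ℕ)) (k h t : ℕ) : ℕ := base n E k + h * (E.length + 1) + t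

def bodyEdges (n : ℕ) (E : List (ℕ × ℕ)) (k h : ℕ) : List (ℕ × ℕ) :=
  [(heavy n E k).getD h (0, 0)] ++
    (List.range (E.length + 1)).flatMap (fun t =>
      [(((heavy n E k).getD h (0, 0)).1, priv n E k h t),
        (((heavy n E k).getD h (0, 0)).2, priv n E k h t)]) ++
    (List.range (E.length + 1)).flatMap (fun t =>
      (List.range t).map (fun t' => (priv n E k h t', priv n E k h t)))

def edges (n : ℕ) (E : List (ℕ × ℕ)) (k : ℕ) : List (ℕ × ℕ) :=
  light n E ++ (List.range (heavy n E k).length).flatMap (bodyEdges n E k)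

def numV (n : ℕ) (E : List (ℕ × ℕ)) (k : ℕ) : ℕ :=
  base n E k + (heavy n E k).length * (E.length + 1)

def graph (n : ℕ) (E : List (ℕ × ℕ)) (k : ℕ) : SimpleGraph (Fin (numV n E k)) where
  Adj i j := i ≠ j ∧ (((i : ℕ), (j : ℕ)) ∈ edges n E k ∨ ((j : ℕ), (i : ℕ)) ∈ edges n E k)
  symm := ⟨fun _ _ h => ⟨h.1.symm, h.2.symm⟩⟩
  loopless := ⟨fun _ h => h.1 rfl⟩

/-- The graph with vertex set `{0, …, n - 1}` and edge list `E` has a clique of size `k`. -/
def HasClique (n : ℕ) (E : List (ℕ × ℕ)) (k : ℕ) : Prop :=
  ∃ K : Finset ℕ, K ⊆ Finset.range n ∧ K.card = k ∧ ∀ u ∈ K, ∀ v ∈ K, u < v → (u, v) ∈ E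

/-! ### Indexing lemmas -/

theorem length_flatMap_range {α : Type*} (f : ℕ → List α) (c : ℕ)
    (hc : ∀ i, (f i).length = c) (a : ℕ) : ((List.range a).flatMap f).length = a * c := by
  induction a with
  | zero => simp
  | succ a ih =>
    rw [List.range_succ, List.flatMap_append, List.length_append, ih]
    simp [hc, Nat.succ_mul]

theorem getD_flatMap_range {α : Type*} (f : ℕ → List α) (c : ℕ)
    (hc : ∀ i, (f i).length = c) (d : α) (a i r : ℕ) (hi : i < a) (hr : r < c) :
    ((List.range a).flatMap f).getD (i * c + r) d = (f i).getD r d := by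
  induction a with
  | zero => omega
  | succ a ih =>
    rw [List.range_succ, List.flatMap_append]
    have hl := length_flatMap_range f c hc a
    by_cases hia : i < a
    · rw [List.getD_append]
      · exact ih hia
      · rw [hl]
        calc i * c + r < i * c + c := by omega
          _ = (i + 1) * c := by ring
          _ ≤ a * c := Nat.mul_le_mul_right c hia
    · have : i = a := by omega
      subst this
      rw [List.getD_append_right]
      · rw [hl]
        simp
      · rw [hl]; omega

variable (n : ℕ) (E : List (ℕ × ℕ)) (k : ℕ)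

/-- The list of the heavy bars of a chain. -/
def chainBars (j : ℕ) : List (ℕ × ℕ) :=
  (List.range (n - 1)).flatMap (fun i =>
        [(rr n E.length j i, if i = 0 then 2 else rr n E.length j (i - 1)),
          (rr n E.length j i, 2 + (i + 1))]) ++ [(0, rr n E.length j (n - 2))]

theorem length_chainBars (j : ℕ) : (chainBars n E j).length = (n - 1) * 2 + 1 := by
  unfold chainBars
  rw [List.length_append, length_flatMap_range _ 2 (fun i => rfl)]
  rfl

theorem heavy_eq : heavy n E k = [(0, 1)] ++ (List.range n).map (fun v => (1, 2 + v)) ++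
    (List.range E.length).flatMap (fun i =>
      [(2 + n + i, 2 + (E.getD i (0, 0)).1), (2 + n + i, 2 + (E.getD i (0, 0)).2)]) ++
    (List.range (n - k - 1)).flatMap (chainBars n E) := rfl

theorem length_heavy : (heavy n E k).length =
    1 + n + E.length * 2 + (n - k - 1) * ((n - 1) * 2 + 1) := by
  rw [heavy_eq, List.length_append, List.length_append, List.length_append, List.length_map,
    List.length_range, length_flatMap_range _ 2 (fun i => rfl),
    length_flatMap_range _ _ (length_chainBars n E)]
  rfl

theorem getD_heavy_zero : (heavy n E k).getD 0 (0, 0) = (0, 1) := rfl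

theorem getD_heavy_gy (v : ℕ) (hv : v < n) : (heavy n E k).getD (1 + v) (0, 0) = (1, 2 + v) := by
  rw [heavy_eq, List.getD_append, List.getD_append, List.getD_append_right]
  · simp [hv]
  · simp
  · simp; omega
  · simp; omega

theorem getD_heavy_xa (i : ℕ) (hi : i < E.length) :
    (heavy n E k).getD (1 + n + i * 2) (0, 0) = (2 + n + i, 2 + (E.getD i (0, 0)).1) := by
  rw [heavy_eq, List.getD_append, List.getD_append_right]
  · have : 1 + n + i * 2 - ([(0, 1)] ++ List.map (fun v => (1, 2 + v)) (List.range n)).length =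
      i * 2 + 0 := by simp; omega
    rw [this, getD_flatMap_range _ 2 (fun i => rfl) _ _ _ _ hi (by omega)]
    rfl
  · simp; omega
  · rw [List.length_append, length_flatMap_range _ 2 (fun i => rfl)]; simp; omega

theorem getD_heavy_xb (i : ℕ) (hi : i < E.length) :
    (heavy n E k).getD (1 + n + (i * 2 + 1)) (0, 0) = (2 + n + i, 2 + (E.getD i (0, 0)).2) := by
  rw [heavy_eq, List.getD_append, List.getD_append_right]
  · have : 1 + n + (i * 2 + 1) - ([(0, 1)] ++ List.map (fun v => (1, 2 + v)) (List.range n)).length =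
      i * 2 + 1 := by simp; omega
    rw [this, getD_flatMap_range _ 2 (fun i => rfl) _ _ _ _ hi (by omega)]
    rfl
  · simp; omega
  · rw [List.length_append, length_flatMap_range _ 2 (fun i => rfl)]; simp; omega

theorem getD_heavy_chain (j r : ℕ) (hj : j < n - k - 1) (hr : r < (n - 1) * 2 + 1) :
    (heavy n E k).getD (1 + n + E.length * 2 + (j * ((n - 1) * 2 + 1) + r)) (0, 0) =
      (chainBars n E j).getD r (0, 0) := by
  rw [heavy_eq, List.getD_append_right]
  · have : 1 + n + E.length * 2 + (j * ((n - 1) * 2 + 1) + r) -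
      ([(0, 1)] ++ List.map (fun v => (1, 2 + v)) (List.range n) ++
        (List.range E.length).flatMap (fun i =>
      [(2 + n + i, 2 + (E.getD i (0, 0)).1), (2 + n + i, 2 + (E.getD i (0, 0)).2)])).length =
      j * ((n - 1) * 2 + 1) + r := by
      rw [List.length_append, length_flatMap_range _ 2 (fun i => rfl)]
      simp
      omega
    rw [this, getD_flatMap_range _ _ (length_chainBars n E) _ _ _ _ hj hr]
  · rw [List.length_append, length_flatMap_range _ 2 (fun i => rfl)]; simp; omega

theorem getD_chainBars_rp (j i : ℕ) (hi : i < n - 1) :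
    (chainBars n E j).getD (i * 2) (0, 0) =
      (rr n E.length j i, if i = 0 then 2 else rr n E.length j (i - 1)) := by
  unfold chainBars
  rw [List.getD_append]
  · have := getD_flatMap_range (fun i =>
        [(rr n E.length j i, if i = 0 then 2 else rr n E.length j (i - 1)),
          (rr n E.length j i, 2 + (i + 1))]) 2 (fun i => rfl) (0, 0) (n - 1) i 0 hi (by omega)
    rw [add_zero] at this
    rw [this]
    rfl
  · rw [length_flatMap_range _ 2 (fun i => rfl)]; omega

theorem getD_chainBars_ry (j i : ℕ) (hi : i < n - 1) :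
    (chainBars n E j).getD (i * 2 + 1) (0, 0) = (rr n E.length j i, 2 + (i + 1)) := by
  unfold chainBars
  rw [List.getD_append]
  · rw [getD_flatMap_range _ 2 (fun i => rfl) _ _ _ _ hi (by omega)]
    rfl
  · rw [length_flatMap_range _ 2 (fun i => rfl)]; omega

theorem getD_chainBars_rg (j : ℕ) :
    (chainBars n E j).getD ((n - 1) * 2) (0, 0) = (0, rr n E.length j (n - 2)) := by
  unfold chainBars
  rw [List.getD_append_right]
  · rw [length_flatMap_range _ 2 (fun i => rfl)]
    simp
  · rw [length_flatMap_range _ 2 (fun i => rfl)]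

end Pool.Agent.Helper77.CoGirth
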