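import Pool.Agent.Helper77.CoGirth.Graph

set_option autoImplicit false

namespace Pool.Agent.Helper77.CoGirth

theorem mul_add_inj {c j i j' i' : ℕ} (hi : i < c) (hi' : i' < c)
    (h : j * c + i = j' * c + i') : j = j' ∧ i = i' := by
  have hj : j = j' := by
    rcases lt_trichotomy j j' with hlt | heq | hgt
    · exfalso
      have : (j + 1) * c ≤ j' * c := Nat.mul_le_mul_right c hlt
      rw [Nat.succ_mul] at this
      omega
    · exact heq
    · exfalso
      have : (j' + 1) * c ≤ j * c := Nat.mul_le_mul_right c hgt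
      rw [Nat.succ_mul] at this
      omega
  subst hj
  exact ⟨rfl, by omega⟩

theorem mul_add_lt {c j i T : ℕ} (hi : i < c) (hj : j < T) : j * c + i < T * c := by
  have : (j + 1) * c ≤ T * c := Nat.mul_le_mul_right c hj
  rw [Nat.succ_mul] at this
  omega

section

variable {n₀ m T : ℕ}

/-- The number of a skeleton vertex. -/
def numS : Sk n₀ m T → ℕ
  | Sk.g1 => 1
  | Sk.g2 => 0
  | Sk.y v => 2 + v
  | Sk.x e => 2 + (n₀ + 1) + e
  | Sk.r j i => 2 + (n₀ + 1) + m + (j * n₀ + i)

theorem numS_injective : Function.Injective (numS (n₀ := n₀) (m := m) (T := T)) := by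
  intro a b h
  cases a with
  | g1 => cases b with
    | g1 => rfl
    | g2 => simp [numS] at h
    | y v => simp only [numS] at h; omega
    | x e => simp only [numS] at h; omega
    | r j i => simp only [numS] at h; generalize (j : ℕ) * n₀ = w at h; omega
  | g2 => cases b with
    | g1 => simp [numS] at h
    | g2 => rfl
    | y v => simp only [numS] at h; omega
    | x e => simp only [numS] at h; omega
    | r j i => simp only [numS] at h; generalize (j : ℕ) * n₀ = w at h; omega
  | y v => cases b with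
    | g1 => simp only [numS] at h; omega
    | g2 => simp only [numS] at h; omega
    | y v' =>
      simp only [numS] at h
      have : v = v' := Fin.ext (by omega)
      rw [this]
    | x e => simp only [numS] at h; have := v.isLt; omega
    | r j i => simp only [numS] at h; have := v.isLt; generalize (j : ℕ) * n₀ = w at h; omega
  | x e => cases b with
    | g1 => simp only [numS] at h; omega
    | g2 => simp only [numS] at h; omega
    | y v => simp only [numS] at h; have := v.isLt; omega
    | x e' =>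
      simp only [numS] at h
      have : e = e' := Fin.ext (by omega)
      rw [this]
    | r j i => simp only [numS] at h; have := e.isLt; generalize (j : ℕ) * n₀ = w at h; omega
  | r j i => cases b with
    | g1 => simp only [numS] at h; generalize (j : ℕ) * n₀ = w at h; omega
    | g2 => simp only [numS] at h; generalize (j : ℕ) * n₀ = w at h; omega
    | y v => simp only [numS] at h; have := v.isLt; generalize (j : ℕ) * n₀ = w at h; omega
    | x e => simp only [numS] at h; have := e.isLt; generalize (j : ℕ) * n₀ = w at h; omega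
    | r j' i' =>
      simp only [numS] at h
      have h2 : (j : ℕ) * n₀ + i = (j' : ℕ) * n₀ + i' := by omega
      obtain ⟨h3, h4⟩ := mul_add_inj i.isLt i'.isLt h2
      rw [Fin.ext h3, Fin.ext h4]

theorem numS_lt (s : Sk n₀ m T) : numS s < 2 + (n₀ + 1) + m + T * n₀ := by
  cases s with
  | g1 => simp only [numS]; generalize T * n₀ = w; omega
  | g2 => simp only [numS]; generalize T * n₀ = w; omega
  | y v => simp only [numS]; have := v.isLt; generalize T * n₀ = w; omega
  | x e => simp only [numS]; have := e.isLt; generalize T * n₀ = w; omega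
  | r j i =>
    simp only [numS]
    have := mul_add_lt i.isLt j.isLt
    omega

/-- The number of a heavy bar. -/
def hidx : Hv n₀ m T → ℕ
  | Hv.g => 0
  | Hv.gy v => 1 + v
  | Hv.xa e => 1 + (n₀ + 1) + e * 2
  | Hv.xb e => 1 + (n₀ + 1) + (e * 2 + 1)
  | Hv.rp j i => 1 + (n₀ + 1) + m * 2 + (j * (n₀ * 2 + 1) + i * 2)
  | Hv.ry j i => 1 + (n₀ + 1) + m * 2 + (j * (n₀ * 2 + 1) + (i * 2 + 1))
  | Hv.rg j => 1 + (n₀ + 1) + m * 2 + (j * (n₀ * 2 + 1) + n₀ * 2)

/-- Decomposition of the index of a heavy bar. -/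
def hcode : Hv n₀ m T → ℕ × ℕ × ℕ
  | Hv.g => (0, 0, 0)
  | Hv.gy v => (1, v, 0)
  | Hv.xa e => (2, e * 2, 0)
  | Hv.xb e => (2, e * 2 + 1, 0)
  | Hv.rp j i => (3, j, i * 2)
  | Hv.ry j i => (3, j, i * 2 + 1)
  | Hv.rg j => (3, j, n₀ * 2)

theorem hcode_injective : Function.Injective (hcode (n₀ := n₀) (m := m) (T := T)) := by
  intro a b h
  cases a <;> cases b <;> simp only [hcode, Prod.mk.injEq] at h <;> first
    | rfl
    | (exfalso; omega)
    | (rename_i v v'; have : v = v' := Fin.ext (by omega); rw [this])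
    | (rename_i j i j' i'; have h1 : j = j' := Fin.ext (by omega)
       have h2 : i = i' := Fin.ext (by omega)
       rw [h1, h2])

theorem hspec (h : Hv n₀ m T) :
    (hcode h = (0, 0, 0) ∧ hidx h = 0) ∨
    (∃ v, v < n₀ + 1 ∧ hcode h = (1, v, 0) ∧ hidx h = 1 + v) ∨
    (∃ e, e < m * 2 ∧ hcode h = (2, e, 0) ∧ hidx h = 1 + (n₀ + 1) + e) ∨
    (∃ j r, r < n₀ * 2 + 1 ∧ hcode h = (3, j, r) ∧
      hidx h = 1 + (n₀ + 1) + m * 2 + (j * (n₀ * 2 + 1) + r)) := by
  cases h with
  | g => exact Or.inl ⟨rfl, rfl⟩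
  | gy v => exact Or.inr (Or.inl ⟨v, v.isLt, rfl, rfl⟩)
  | xa e => exact Or.inr (Or.inr (Or.inl ⟨e * 2, by have := e.isLt; omega, rfl, rfl⟩))
  | xb e => exact Or.inr (Or.inr (Or.inl ⟨e * 2 + 1, by have := e.isLt; omega, rfl, rfl⟩))
  | rp j i =>
    exact Or.inr (Or.inr (Or.inr ⟨j, i * 2, by have := i.isLt; omega, rfl, rfl⟩))
  | ry j i =>
    exact Or.inr (Or.inr (Or.inr ⟨j, i * 2 + 1, by have := i.isLt; omega, rfl, rfl⟩))
  | rg j =>
    exact Or.inr (Or.inr (Or.inr ⟨j, n₀ * 2, by omega, rfl, rfl⟩))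

theorem hidx_injective : Function.Injective (hidx (n₀ := n₀) (m := m) (T := T)) := by
  intro a b h
  apply hcode_injective
  rcases hspec a with ⟨c, i⟩ | ⟨v, hv, c, i⟩ | ⟨e, he, c, i⟩ | ⟨j, r, hr, c, i⟩ <;>
    rcases hspec b with ⟨c', i'⟩ | ⟨v', hv', c', i'⟩ | ⟨e', he', c', i'⟩ | ⟨j', r', hr', c', i'⟩ <;>
    rw [c, c'] <;> rw [i, i'] at h
  · exfalso; omega
  · exfalso; omega
  · exfalso; generalize j' * (n₀ * 2 + 1) = w at h; omega
  · exfalso; omega
  · rw [Nat.add_left_cancel h]
  · exfalso; omega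
  · exfalso; generalize j' * (n₀ * 2 + 1) = w at h; omega
  · exfalso; omega
  · exfalso; omega
  · rw [Nat.add_left_cancel h]
  · exfalso; generalize j' * (n₀ * 2 + 1) = w at h; omega
  · exfalso; generalize j * (n₀ * 2 + 1) = w at h; omega
  · exfalso; generalize j * (n₀ * 2 + 1) = w at h; omega
  · exfalso; generalize j * (n₀ * 2 + 1) = w at h; omega
  · obtain ⟨h3, h4⟩ := mul_add_inj hr hr' (Nat.add_left_cancel h)
    rw [h3, h4]

theorem hidx_lt (h : Hv n₀ m T) :
    hidx h < 1 + (n₀ + 1) + m * 2 + T * (n₀ * 2 + 1) := by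
  cases h with
  | g => simp only [hidx]; generalize T * (n₀ * 2 + 1) = w; omega
  | gy v => simp only [hidx]; have := v.isLt; generalize T * (n₀ * 2 + 1) = w; omega
  | xa e => simp only [hidx]; have := e.isLt; generalize T * (n₀ * 2 + 1) = w; omega
  | xb e => simp only [hidx]; have := e.isLt; generalize T * (n₀ * 2 + 1) = w; omega
  | rp j i =>
    simp only [hidx]
    have h1 := i.isLt
    have := mul_add_lt (c := n₀ * 2 + 1) (i := i * 2) (by omega) j.isLt
    omega
  | ry j i =>
    simp only [hidx]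
    have h1 := i.isLt
    have := mul_add_lt (c := n₀ * 2 + 1) (i := i * 2 + 1) (by omega) j.isLt
    omega
  | rg j =>
    simp only [hidx]
    have := mul_add_lt (c := n₀ * 2 + 1) (i := n₀ * 2) (by omega) j.isLt
    omega

theorem hidx_surj (a : ℕ) (ha : a < 1 + (n₀ + 1) + m * 2 + T * (n₀ * 2 + 1)) :
    ∃ h : Hv n₀ m T, hidx h = a := by
  let f : Hv n₀ m T → Fin (1 + (n₀ + 1) + m * 2 + T * (n₀ * 2 + 1)) := fun h => ⟨hidx h, hidx_lt h⟩
  have hf : Function.Injective f := by
    intro x y hxy
    apply hidx_injective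
    exact congrArg Fin.val hxy
  have hb : Function.Bijective f := by
    rw [Fintype.bijective_iff_injective_and_card]
    refine ⟨hf, ?_⟩
    rw [card_hv, Fintype.card_fin]
    ring
  obtain ⟨h, hh⟩ := hb.2 ⟨a, ha⟩
  exact ⟨h, congrArg Fin.val hh⟩

end

end Pool.Agent.Helper77.CoGirth
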