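import Pool.Agent.Helper77.CoGirth.Complete

set_option autoImplicit false

namespace Pool.Agent.Helper77.CoGirth

variable {S H L : Type*}

/-- The vertices of the body replacing the heavy bar `h`: its two ends and `P` private vertices. -/
def bodyVert (P : ℕ) (ends : H → S × S) (h : H) : Fin (P + 2) → S ⊕ (H × Fin P) :=
  Fin.cons (Sum.inl (ends h).1) (Fin.cons (Sum.inl (ends h).2) (fun t => Sum.inr (h, t)))

/-- The graph obtained from a skeleton: every heavy bar is replaced by a complete graph on its two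
ends and `P` private vertices, and the light bars are added as single edges. -/
def heavyGraph (P : ℕ) (ends : H → S × S) (light : L → S × S) :
    SimpleGraph (S ⊕ (H × Fin P)) :=
  SimpleGraph.fromRel fun u v =>
    (∃ h i j, u = bodyVert P ends h i ∧ v = bodyVert P ends h j) ∨
      (∃ l, u = Sum.inl (light l).1 ∧ v = Sum.inl (light l).2)

/-- Points on a parabola through `A` (parameter `0`) and `B` (parameter `1`). -/
def pt (A B : Fin 2 → ℝ) (τ : ℝ) : Fin 2 → ℝ :=
  ![A 0 + τ * (B 0 - A 0) - (τ ^ 2 - τ) * (B 1 - A 1),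
    A 1 + τ * (B 1 - A 1) + (τ ^ 2 - τ) * (B 0 - A 0)]

/-- The special realisation extending a realisation of the skeleton. -/
def pos (P : ℕ) (ends : H → S × S) (q : S → Fin 2 → ℝ) : S ⊕ (H × Fin P) → Fin 2 → ℝ
  | Sum.inl x => q x
  | Sum.inr (h, t) => pt (q (ends h).1) (q (ends h).2) ((t : ℕ) + 2)

theorem pos_bodyVert (P : ℕ) (ends : H → S × S) (q : S → Fin 2 → ℝ) (h : H) (i : Fin (P + 2)) :
    pos P ends q (bodyVert P ends h i) = pt (q (ends h).1) (q (ends h).2) ((i : ℕ) : ℝ) := by
  refine Fin.cases ?_ (fun j => ?_) i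
  · simp only [bodyVert, Fin.cons_zero, pos]
    funext c
    fin_cases c <;> simp [pt]
  · refine Fin.cases ?_ (fun t => ?_) j
    · simp only [bodyVert, Fin.cons_succ, Fin.cons_zero, pos]
      funext c
      fin_cases c <;> simp [pt]
    · simp only [bodyVert, Fin.cons_succ, pos]
      congr 1
      simp only [Fin.val_succ]
      push_cast
      ring

theorem bodyVert_injective (P : ℕ) (ends : H → S × S) (h : H) (hne : (ends h).1 ≠ (ends h).2) :
    Function.Injective (bodyVert P ends h) := by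
  intro i j
  refine Fin.cases ?_ (fun i' => ?_) i <;> refine Fin.cases ?_ (fun j' => ?_) j
  · intro _; rfl
  · refine Fin.cases ?_ (fun t => ?_) j'
    · intro h'
      simp only [bodyVert, Fin.cons_zero, Fin.cons_succ, Sum.inl.injEq] at h'
      exact absurd h' hne
    · intro h'
      simp [bodyVert] at h'
  · refine Fin.cases ?_ (fun t => ?_) i'
    · intro h'
      simp only [bodyVert, Fin.cons_zero, Fin.cons_succ, Sum.inl.injEq] at h'
      exact absurd h'.symm hne
    · intro h'
      simp [bodyVert] at h'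
  · refine Fin.cases ?_ (fun t => ?_) i' <;> refine Fin.cases ?_ (fun t' => ?_) j'
    · intro _; rfl
    · intro h'
      simp [bodyVert] at h'
    · intro h'
      simp [bodyVert] at h'
    · intro h'
      simp only [bodyVert, Fin.cons_succ, Sum.inr.injEq, Prod.mk.injEq, true_and] at h'
      rw [h']

theorem cross_body (P : ℕ) (ends : H → S × S) (q : S → Fin 2 → ℝ) (h : H)
    (i j k : Fin (P + 2)) :
    cross (pos P ends q) (bodyVert P ends h i) (bodyVert P ends h j) (bodyVert P ends h k) =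
      ((q (ends h).1 0 - q (ends h).2 0) ^ 2 + (q (ends h).1 1 - q (ends h).2 1) ^ 2) *
        (((j : ℕ) : ℝ) - ((i : ℕ) : ℝ)) * (((k : ℕ) : ℝ) - ((i : ℕ) : ℝ)) *
        (((k : ℕ) : ℝ) - ((j : ℕ) : ℝ)) := by
  unfold cross
  simp only [pos_bodyVert]
  simp only [pt, Matrix.cons_val_zero, Matrix.cons_val_one]
  ring

theorem sq_add_sq_ne_zero {a b : Fin 2 → ℝ} (h : a ≠ b) :
    (a 0 - b 0) ^ 2 + (a 1 - b 1) ^ 2 ≠ 0 := by
  intro h0
  have a0 : a 0 - b 0 = 0 := by nlinarith [sq_nonneg (a 0 - b 0), sq_nonneg (a 1 - b 1)]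
  have a1 : a 1 - b 1 = 0 := by nlinarith [sq_nonneg (a 0 - b 0), sq_nonneg (a 1 - b 1)]
  apply h
  funext c
  fin_cases c
  · simpa using sub_eq_zero.mp a0
  · simpa using sub_eq_zero.mp a1

open scoped Classical in
/-- The body of a heavy bar as a finset. -/
noncomputable def body (P : ℕ) (ends : H → S × S) (h : H) : Finset (S ⊕ (H × Fin P)) :=
  Finset.univ.image (bodyVert P ends h)

theorem mem_body {P : ℕ} {ends : H → S × S} {h : H} {v : S ⊕ (H × Fin P)} :
    v ∈ body P ends h ↔ ∃ i, bodyVert P ends h i = v := by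
  simp [body]

open scoped Classical in
theorem card_body (P : ℕ) (ends : H → S × S) (h : H) (hne : (ends h).1 ≠ (ends h).2) :
    (body P ends h).card = P + 2 := by
  unfold body
  rw [Finset.card_image_of_injective _ (bodyVert_injective P ends h hne), Finset.card_univ,
    Fintype.card_fin]

/-- **Rigidity criterion for heavy graphs.** -/
theorem isRigid_heavy [Fintype S] [Fintype H] (P : ℕ) (ends : H → S × S) (light : L → S × S)
    (F : Finset (Sym2 (S ⊕ (H × Fin P)))) (hF : F.card + 1 ≤ P)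
    (q : S → Fin 2 → ℝ) (hne : ∀ h, q (ends h).1 ≠ q (ends h).2)
    (hlne : ∀ l, (light l).1 ≠ (light l).2) (a b : S)
    (hskel : ∀ s : S × Fin 2 → ℝ, (∀ h, barOK q s (ends h).1 (ends h).2) →
      (∀ l, s(Sum.inl (light l).1, Sum.inl (light l).2) ∉ F →
        barOK q s (light l).1 (light l).2) →
      s (a, 0) = 0 → s (a, 1) = 0 → s (b, 0) = 0 → s = 0) :
    IsRigid ((heavyGraph P ends light).deleteEdges (F : Set (Sym2 (S ⊕ (H × Fin P))))) := by
  classical
  apply isRigid_of_special _ (pos P ends q) (Sum.inl a) (Sum.inl b)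
  intro s hs h1 h2 h3
  rw [mem_motions'] at hs
  have hneS : ∀ h, (ends h).1 ≠ (ends h).2 := fun h h0 => hne h (by rw [h0])
  -- every body moves trivially
  have hbody : ∀ h, TrivialOn (pos P ends q) s (body P ends h) := by
    intro h
    obtain ⟨n, hn⟩ : ∃ n, P = n + 1 := ⟨P - 1, by omega⟩
    apply trivialOn_of_card' (pos P ends q) s F n
    · rw [card_body P ends h (hneS h)]; omega
    · omega
    · intro u hu v hv w hw huv hvw huw
      rw [mem_body] at hu hv hw
      obtain ⟨i, rfl⟩ := hu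
      obtain ⟨j, rfl⟩ := hv
      obtain ⟨k, rfl⟩ := hw
      rw [cross_body]
      have hij : (i : ℕ) ≠ (j : ℕ) := fun h0 => huv (by rw [Fin.ext h0])
      have hjk : (j : ℕ) ≠ (k : ℕ) := fun h0 => hvw (by rw [Fin.ext h0])
      have hik : (i : ℕ) ≠ (k : ℕ) := fun h0 => huw (by rw [Fin.ext h0])
      refine mul_ne_zero (mul_ne_zero (mul_ne_zero (sq_add_sq_ne_zero (hne h)) ?_) ?_) ?_
      · exact sub_ne_zero.mpr (by exact_mod_cast hij.symm)
      · exact sub_ne_zero.mpr (by exact_mod_cast hik.symm)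
      · exact sub_ne_zero.mpr (by exact_mod_cast hjk.symm)
    · intro u hu v hv huv hnF
      rw [mem_body] at hu hv
      obtain ⟨i, rfl⟩ := hu
      obtain ⟨j, rfl⟩ := hv
      apply hs
      rw [SimpleGraph.deleteEdges_adj]
      refine ⟨?_, by simpa using hnF⟩
      rw [heavyGraph, SimpleGraph.fromRel_adj]
      exact ⟨huv, Or.inl (Or.inl ⟨h, i, j, rfl, rfl⟩)⟩
  -- restrict to the skeleton
  have hz := hskel (fun xc => s (Sum.inl xc.1, xc.2))
    (fun h => by
      have hA : (Sum.inl (ends h).1 : S ⊕ (H × Fin P)) ∈ body P ends h :=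
        mem_body.mpr ⟨0, rfl⟩
      have hB : (Sum.inl (ends h).2 : S ⊕ (H × Fin P)) ∈ body P ends h :=
        mem_body.mpr ⟨1, rfl⟩
      have := barOK_of_trivialOn (hbody h) hA hB
      exact this)
    (fun l hl => by
      have := hs (Sum.inl (light l).1) (Sum.inl (light l).2) (by
        rw [SimpleGraph.deleteEdges_adj]
        refine ⟨?_, by simpa using hl⟩
        rw [heavyGraph, SimpleGraph.fromRel_adj]
        exact ⟨fun h0 => hlne l (Sum.inl_injective h0), Or.inl (Or.inr ⟨l, rfl, rfl⟩)⟩)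
      exact this) h1 h2 h3
  have hS : ∀ x c, s (Sum.inl x, c) = 0 := fun x c => congrFun hz (x, c)
  funext vc
  obtain ⟨v, c⟩ := vc
  cases v with
  | inl x => exact hS x c
  | inr ht =>
    obtain ⟨h, t⟩ := ht
    have hA : (Sum.inl (ends h).1 : S ⊕ (H × Fin P)) ∈ body P ends h :=
      mem_body.mpr ⟨0, rfl⟩
    have hB : (Sum.inl (ends h).2 : S ⊕ (H × Fin P)) ∈ body P ends h :=
      mem_body.mpr ⟨1, rfl⟩
    have hT : (Sum.inr (h, t) : S ⊕ (H × Fin P)) ∈ body P ends h :=
      mem_body.mpr ⟨t.succ.succ, rfl⟩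
    have := zero_of_trivialOn (hbody h) hA hB (hne h) (hS _ _) (hS _ _) (hS _ _) (hS _ _) _ hT
    fin_cases c
    · exact this.1
    · exact this.2

end Pool.Agent.Helper77.CoGirth
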