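import Pool.Agent.Helper77.CoGirth.Main

set_option autoImplicit false

namespace Pool.Agent.Helper77.CoGirth

theorem isGeneric_comp_equiv {V W : Type*} (e : V ≃ W) {p : W → Fin 2 → ℝ}
    (hp : IsGeneric p) : IsGeneric (fun v => p (e v)) := by
  have h := AlgebraicIndependent.comp hp (fun vc : V × Fin 2 => ((e vc.1, vc.2) : W × Fin 2)) (by
    rintro ⟨v, c⟩ ⟨v', c'⟩ h
    simp only [Prod.mk.injEq, EmbeddingLike.apply_eq_iff_eq] at h
    rw [h.1, h.2])
  exact h

theorem finrank_motions_iso {V W : Type*} [Fintype V] [Fintype W] {G : SimpleGraph V}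
    {G' : SimpleGraph W} (e : G ≃g G') (p : W → Fin 2 → ℝ) :
    Module.finrank ℝ (motions G (fun v => p (e v))) = Module.finrank ℝ (motions G' p) := by
  let f : (W × Fin 2 → ℝ) ≃ₗ[ℝ] (V × Fin 2 → ℝ) :=
    LinearEquiv.funCongrLeft ℝ ℝ (e.toEquiv.prodCongr (Equiv.refl (Fin 2)))
  have hf : ∀ s : W × Fin 2 → ℝ, ∀ v c, f s (v, c) = s (e v, c) := fun s v c => rfl
  have hmap : (motions G' p).map (f : (W × Fin 2 → ℝ) →ₗ[ℝ] (V × Fin 2 → ℝ)) =
      motions G (fun v => p (e v)) := by
    ext s
    rw [Submodule.mem_map]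
    constructor
    · rintro ⟨s', hs', rfl⟩
      rw [mem_motions] at hs' ⊢
      intro u v huv
      have := hs' (e u) (e v) (e.map_rel_iff.mpr huv)
      simpa [hf] using this
    · intro hs
      refine ⟨f.symm s, ?_, by simp⟩
      rw [mem_motions] at hs ⊢
      intro u v huv
      obtain ⟨u', rfl⟩ := e.surjective u
      obtain ⟨v', rfl⟩ := e.surjective v
      have := hs u' v' (e.map_rel_iff.mp huv)
      have h1 : ∀ w c, (f.symm s) (e w, c) = s (w, c) := by
        intro w c
        have h2 := congrFun (f.apply_symm_apply s) (w, c)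
        rw [hf] at h2
        exact h2
      simpa [h1] using this
  rw [← hmap]
  exact (LinearEquiv.finrank_map_eq f _)

theorem rank_iso {V W : Type*} [Fintype V] [Fintype W] {G : SimpleGraph V}
    {G' : SimpleGraph W} (e : G ≃g G') (p : W → Fin 2 → ℝ) :
    (rigidityMatrix G (fun v => p (e v))).rank = (rigidityMatrix G' p).rank := by
  have h1 := rank_add_finrank_motions G (fun v => p (e v))
  have h2 := rank_add_finrank_motions G' p
  have h3 := finrank_motions_iso e p
  have h4 : Fintype.card V = Fintype.card W := Fintype.card_congr e.toEquiv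
  omega

theorem isRigid_iso_aux {V W : Type*} [Fintype V] [Fintype W] {G : SimpleGraph V}
    {G' : SimpleGraph W} (e : G ≃g G') (h : IsRigid G) : IsRigid G' := by
  intro p hp
  have h1 := h (fun v => p (e v)) (isGeneric_comp_equiv e.toEquiv hp)
  rw [rank_iso e p] at h1
  rwa [Fintype.card_congr e.toEquiv] at h1

theorem isRigid_iso {V W : Type*} [Fintype V] [Fintype W] {G : SimpleGraph V}
    {G' : SimpleGraph W} (e : G ≃g G') : IsRigid G ↔ IsRigid G' :=
  ⟨isRigid_iso_aux e, isRigid_iso_aux e.symm⟩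

open scoped Classical in
/-- An isomorphism of graphs induces an isomorphism after deletion of corresponding edges. -/
noncomputable def deleteIso {V W : Type*} {G : SimpleGraph V} {G' : SimpleGraph W} (e : G ≃g G')
    (F : Finset (Sym2 V)) :
    G.deleteEdges (F : Set (Sym2 V)) ≃g
      G'.deleteEdges ((F.image (Sym2.map e) : Finset (Sym2 W)) : Set (Sym2 W)) where
  toEquiv := e.toEquiv
  map_rel_iff' := by
    intro u v
    have hadj : G'.Adj (e u) (e v) ↔ G.Adj u v := e.map_rel_iff
    have hmem : s(e u, e v) ∈ (F.image (Sym2.map e) : Finset (Sym2 W)) ↔ s(u, v) ∈ F := by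
      rw [Finset.mem_image]
      constructor
      · rintro ⟨z, hz, h⟩
        have : z = s(u, v) := Sym2.map.injective e.injective (by rw [h]; rfl)
        rwa [← this]
      · intro h
        exact ⟨s(u, v), h, rfl⟩
    change (G'.deleteEdges _).Adj (e u) (e v) ↔ _
    rw [SimpleGraph.deleteEdges_adj, SimpleGraph.deleteEdges_adj, hadj]
    rw [Finset.mem_coe, Finset.mem_coe, hmem]

theorem coGirth_le_of_iso {V W : Type*} [Fintype V] [Fintype W] {G : SimpleGraph V}
    {G' : SimpleGraph W} (e : G ≃g G') {r : ℕ}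
    (h : ∃ F : Finset (Sym2 V), (F : Set (Sym2 V)) ⊆ G.edgeSet ∧ F.card = r ∧
      ¬ IsRigid (G.deleteEdges (F : Set (Sym2 V)))) :
    ∃ F : Finset (Sym2 W), (F : Set (Sym2 W)) ⊆ G'.edgeSet ∧ F.card = r ∧
      ¬ IsRigid (G'.deleteEdges (F : Set (Sym2 W))) := by
  classical
  obtain ⟨F, hF, hc, hr⟩ := h
  refine ⟨F.image (Sym2.map e), ?_, ?_, ?_⟩
  · intro z hz
    rw [Finset.coe_image] at hz
    obtain ⟨w, hw, rfl⟩ := hz
    have := hF hw
    induction w with
    | _ a b => exact e.map_rel_iff.mpr this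
  · rw [Finset.card_image_of_injective _ (Sym2.map.injective e.injective), hc]
  · intro h
    apply hr
    rw [isRigid_iso (deleteIso e F)]
    exact h

theorem coGirth_iso {V W : Type*} [Fintype V] [Fintype W] {G : SimpleGraph V}
    {G' : SimpleGraph W} (e : G ≃g G') : coGirth G = coGirth G' := by
  unfold coGirth
  congr 1
  ext r
  exact ⟨coGirth_le_of_iso e, coGirth_le_of_iso e.symm⟩

end Pool.Agent.Helper77.CoGirth
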