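import Mathlib

set_option autoImplicit false

namespace Pool.Agent.Helper77.CoGirth

variable {n m T k : ℕ}

/-- `K` is a clique of the graph with edge list `ed`. -/
def IsCliqueOf (ed : Fin m → Fin (n + 1) × Fin (n + 1)) (K : Finset (Fin (n + 1))) : Prop :=
  ∀ u ∈ K, ∀ v ∈ K, u ≠ v → ∃ e, s((ed e).1, (ed e).2) = s(u, v)

theorem two_mul_choose_two (j : ℕ) : 2 * (j + 1).choose 2 = (j + 1) * j := by
  rw [Nat.choose_two_right]
  have h : 2 ∣ (j + 1) * (j + 1 - 1) := (Nat.even_mul_pred_self (j + 1)).two_dvd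
  rw [Nat.mul_div_cancel' h]
  simp

theorem choose_arith {j k : ℕ} (hk : 4 ≤ k) (hjk : j ≤ k)
    (h : k.choose 2 ≤ (k - j) + j.choose 2) : j = k := by
  by_contra hne
  have hlt : j < k := lt_of_le_of_ne hjk hne
  obtain ⟨k', rfl⟩ : ∃ k', k = k' + 1 := ⟨k - 1, by omega⟩
  have h1 := two_mul_choose_two k'
  rcases Nat.eq_zero_or_pos j with hj0 | hj0
  · subst hj0
    simp at h
    nlinarith
  · obtain ⟨j', rfl⟩ : ∃ j', j = j' + 1 := ⟨j - 1, by omega⟩
    have h2 := two_mul_choose_two j'
    obtain ⟨d, rfl⟩ : ∃ d, k' = j' + 1 + d := ⟨k' - j' - 1, by omega⟩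
    have h3 : j' + 1 + d + 1 - (j' + 1) = d + 1 := by omega
    rw [h3] at h
    nlinarith

open scoped Classical in
theorem card_edges_in_le (ed : Fin m → Fin (n + 1) × Fin (n + 1))
    (hed : ∀ e, (ed e).1 ≠ (ed e).2)
    (hinj : ∀ e e', s((ed e).1, (ed e).2) = s((ed e').1, (ed e').2) → e = e')
    (E : Finset (Fin m)) (B : Finset (Fin (n + 1)))
    (hE : ∀ e ∈ E, (ed e).1 ∈ B ∧ (ed e).2 ∈ B) :
    E.card ≤ B.card.choose 2 ∧ (E.card = B.card.choose 2 → IsCliqueOf ed B) := by
  have hcard : (E.image (fun e => s((ed e).1, (ed e).2))).card = E.card := by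
    apply Finset.card_image_of_injective
    intro e e' h
    exact hinj e e' h
  have hsub : E.image (fun e => s((ed e).1, (ed e).2)) ⊆ B.offDiag.image (fun p => s(p.1, p.2)) := by
    intro z hz
    rw [Finset.mem_image] at hz ⊢
    obtain ⟨e, he, rfl⟩ := hz
    refine ⟨((ed e).1, (ed e).2), ?_, rfl⟩
    rw [Finset.mem_offDiag]
    exact ⟨(hE e he).1, (hE e he).2, hed e⟩
  have hB : (B.offDiag.image (fun p => s(p.1, p.2))).card = B.card.choose 2 :=
    Sym2.card_image_offDiag B
  constructor
  · rw [← hcard, ← hB]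
    exact Finset.card_le_card hsub
  · intro heq
    have himg : E.image (fun e => s((ed e).1, (ed e).2)) = B.offDiag.image (fun p => s(p.1, p.2)) :=
      Finset.eq_of_subset_of_card_le hsub (by rw [hcard, hB, heq])
    intro u hu v hv huv
    have : s(u, v) ∈ E.image (fun e => s((ed e).1, (ed e).2)) := by
      rw [himg, Finset.mem_image]
      exact ⟨(u, v), by rw [Finset.mem_offDiag]; exact ⟨hu, hv, huv⟩, rfl⟩
    rw [Finset.mem_image] at this
    obtain ⟨e, -, he⟩ := this
    exact ⟨e, he⟩

open scoped Classical in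
/-- Hall's theorem gives a matching of the vertices into surviving light bars and gadgets, unless
there is a clique of size `k`. -/
theorem exists_matching (ed : Fin m → Fin (n + 1) × Fin (n + 1))
    (hed : ∀ e, (ed e).1 ≠ (ed e).2)
    (hinj : ∀ e e', s((ed e).1, (ed e).2) = s((ed e').1, (ed e').2) → e = e')
    (hT : T + k = n) (hk : 4 ≤ k) (E : Finset (Fin m)) (hE : k.choose 2 ≤ E.card)
    (hno : k.choose 2 = E.card → ¬ ∃ K : Finset (Fin (n + 1)), K.card = k ∧ IsCliqueOf ed K) :
    ∃ φ : Fin (n + 1) → Fin m ⊕ Fin T, Function.Injective φ ∧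
      ∀ v e, φ v = Sum.inl e → e ∈ E ∧ (v = (ed e).1 ∨ v = (ed e).2) := by
  let t : Fin (n + 1) → Finset (Fin m ⊕ Fin T) := fun v =>
    (E.filter (fun e => v = (ed e).1 ∨ v = (ed e).2)).disjSum Finset.univ
  have hall : ∀ A : Finset (Fin (n + 1)), A.card ≤ (A.biUnion t).card := by
    intro A
    rcases A.eq_empty_or_nonempty with rfl | hAne
    · simp
    by_contra hlt
    push Not at hlt
    set EA := E.filter (fun e => (ed e).1 ∈ A ∨ (ed e).2 ∈ A) with hEA
    set EB := E.filter (fun e => ¬ ((ed e).1 ∈ A ∨ (ed e).2 ∈ A)) with hEB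
    have hsum : EA.card + EB.card = E.card := Finset.card_filter_add_card_filter_not _
    have hsub : EA.disjSum (Finset.univ : Finset (Fin T)) ⊆ A.biUnion t := by
      intro z hz
      rw [Finset.mem_biUnion]
      cases z with
      | inl e =>
        rw [Finset.inl_mem_disjSum, hEA, Finset.mem_filter] at hz
        rcases hz.2 with h | h
        · exact ⟨_, h, by simp [t, hz.1]⟩
        · exact ⟨_, h, by simp [t, hz.1]⟩
      | inr j =>
        obtain ⟨v, hv⟩ := hAne
        exact ⟨v, hv, by simp [t]⟩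
    have h1 := Finset.card_le_card hsub
    rw [Finset.card_disjSum, Finset.card_univ, Fintype.card_fin] at h1
    have hBc : A.card + (Finset.univ \ A).card = n + 1 := by
      have := Finset.card_sdiff_add_card_eq_card (Finset.subset_univ A)
      rw [Finset.card_univ, Fintype.card_fin] at this
      omega
    have hEBle := card_edges_in_le ed hed hinj EB (Finset.univ \ A) (by
      intro e he
      rw [hEB, Finset.mem_filter] at he
      push Not at he
      simp [he.2.1, he.2.2])
    have hjk : (Finset.univ \ A).card ≤ k := by omega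
    have hj : (Finset.univ \ A).card = k := by
      apply choose_arith hk hjk
      omega
    rw [hj] at hEBle
    have hEAle : EA.card + k ≤ k := by omega
    have hEA0 : EA.card = 0 := by omega
    have hEBk : EB.card = k.choose 2 := by omega
    apply hno (by omega)
    exact ⟨Finset.univ \ A, hj, hEBle.2 hEBk⟩
  obtain ⟨φ, hφ, hφt⟩ := (Finset.all_card_le_biUnion_card_iff_exists_injective t).mp hall
  refine ⟨φ, hφ, ?_⟩
  intro v e he
  have := hφt v
  rw [he] at this
  simp only [t, Finset.inl_mem_disjSum, Finset.mem_filter] at this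
  exact this

end Pool.Agent.Helper77.CoGirth
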