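import Pool.Agent.Helper77.CoGirth.SkelMotion
import Pool.Agent.Helper77.CoGirth.Matching

set_option autoImplicit false

namespace Pool.Agent.Helper77.CoGirth

variable {n m k : ℕ}

/-- Vertices of the constructed graph: skeleton vertices and, for every heavy bar, `m + 1`
private vertices. The number of chains is `T = n - k`. -/
abbrev GV (n m k : ℕ) : Type := Sk n m (n - k) ⊕ (Hv n m (n - k) × Fin (m + 1))

/-- The graph `G(Q, k)` constructed from a graph `Q` with vertex set `Fin (n + 1)` and edge list
`ed`. -/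
def redGraph (k : ℕ) (ed : Fin m → Fin (n + 1) × Fin (n + 1)) : SimpleGraph (GV n m k) :=
  heavyGraph (m + 1) (heavyEnds ed) lightEnds

/-- The light edge of the input edge `e`. -/
def lightEdge (k : ℕ) (e : Fin m) : Sym2 (GV n m k) := s(Sum.inl (Sk.x e), Sum.inl Sk.g2)

theorem lightEdge_injective : Function.Injective (lightEdge (n := n) (m := m) k) := by
  intro e e' h
  unfold lightEdge at h
  rw [Sym2.eq_iff] at h
  rcases h with ⟨h, -⟩ | ⟨h, -⟩
  · simpa using h
  · simp at h

theorem lightEdge_mem (ed : Fin m → Fin (n + 1) × Fin (n + 1)) (e : Fin m) :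
    lightEdge k e ∈ (redGraph k ed).edgeSet := by
  unfold lightEdge redGraph heavyGraph
  rw [SimpleGraph.mem_edgeSet, SimpleGraph.fromRel_adj]
  refine ⟨by simp, Or.inl (Or.inr ⟨e, rfl, rfl⟩)⟩

open scoped Classical in
/-- If there is no `k`-clique, deleting at most `m - (k choose 2)` edges keeps the graph rigid. -/
theorem isRigid_of_no_clique (ed : Fin m → Fin (n + 1) × Fin (n + 1))
    (hed : ∀ e, (ed e).1 ≠ (ed e).2)
    (hinj : ∀ e e', s((ed e).1, (ed e).2) = s((ed e').1, (ed e').2) → e = e')
    (hk : 4 ≤ k) (hkn : k ≤ n) (F : Finset (Sym2 (GV n m k)))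
    (hF : F.card + k.choose 2 ≤ m)
    (hno : F.card + k.choose 2 = m →
      ¬ ∃ K : Finset (Fin (n + 1)), K.card = k ∧ IsCliqueOf ed K) :
    IsRigid ((redGraph k ed).deleteEdges (F : Set (Sym2 (GV n m k)))) := by
  set E : Finset (Fin m) := Finset.univ.filter (fun e => lightEdge k e ∉ F) with hE
  have hEc : m ≤ E.card + F.card := by
    have h1 : (Finset.univ.filter (fun e => lightEdge (n := n) k e ∈ F)).card ≤ F.card := by
      apply Finset.card_le_card_of_injOn (fun e => lightEdge k e)
      · intro e he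
        exact (Finset.mem_filter.mp (Finset.mem_coe.mp he)).2
      · intro e _ e' _ h
        exact lightEdge_injective h
    have h2 := Finset.card_filter_add_card_filter_not (s := (Finset.univ : Finset (Fin m)))
      (fun e => lightEdge (n := n) k e ∈ F)
    rw [Finset.card_univ, Fintype.card_fin] at h2
    have h3 : E.card = (Finset.univ.filter (fun e => ¬ lightEdge (n := n) k e ∈ F)).card := rfl
    omega
  have hEm : E.card ≤ m := by
    have := Finset.card_le_univ E
    rwa [Fintype.card_fin] at this
  have hkm : 0 < k.choose 2 := Nat.choose_pos (by omega)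
  obtain ⟨φ, hφ, hφE⟩ := exists_matching (T := n - k) ed hed hinj (by omega) hk E (by omega)
    (fun h => hno (by omega))
  -- the special position
  let xv : Fin m → Fin (n + 1) := fun e => if h : ∃ v, φ v = Sum.inl e then h.choose else 0
  let tv : Fin (n - k) → ℕ := fun j => if h : ∃ v, φ v = Sum.inr j then (h.choose : ℕ) else 0
  have hxv : ∀ v e, φ v = Sum.inl e → xv e = v := by
    intro v e h
    have hex : ∃ v, φ v = Sum.inl e := ⟨v, h⟩
    simp only [xv, dif_pos hex]
    exact hφ (hex.choose_spec.trans h.symm)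
  have htv : ∀ v j, φ v = Sum.inr j → tv j = (v : ℕ) := by
    intro v j h
    have hex : ∃ v, φ v = Sum.inr j := ⟨v, h⟩
    simp only [tv, dif_pos hex]
    rw [hφ (hex.choose_spec.trans h.symm)]
  refine isRigid_heavy (m + 1) (heavyEnds ed) lightEnds F (by omega) (skPos xv tv)
    (heavy_ne ed xv tv) (by intro l h; simp [lightEnds] at h) Sk.g2 Sk.g1 ?_
  intro s hh hl h20 h21 h10
  refine skel_motion_zero ed hed xv tv (fun e => lightEdge k e ∉ F) ?_ s hh ?_ h20 h21 h10
  · intro v
    rcases hv : φ v with e | j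
    · left
      have := hφE v e hv
      rw [hE, Finset.mem_filter] at this
      exact ⟨e, this.1.2, hxv v e hv, this.2⟩
    · right
      exact ⟨j, htv v j hv⟩
  · intro e he
    exact hl e he

/-- The constructed graph is rigid. -/
theorem isRigid_redGraph (ed : Fin m → Fin (n + 1) × Fin (n + 1))
    (hed : ∀ e, (ed e).1 ≠ (ed e).2)
    (hinj : ∀ e e', s((ed e).1, (ed e).2) = s((ed e').1, (ed e').2) → e = e')
    (hk : 4 ≤ k) (hkn : k ≤ n) (hm : k.choose 2 < m) :
    IsRigid (redGraph k ed) := by
  have := isRigid_of_no_clique ed hed hinj hk hkn ∅ (by simp; omega)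
    (fun h => by simp at h; omega)
  simpa using this

open scoped Classical in
/-- If there is a `k`-clique, some `m - (k choose 2)` light edges can be deleted so that the
remaining graph is not rigid. -/
theorem not_isRigid_of_clique (ed : Fin m → Fin (n + 1) × Fin (n + 1))
    (hed : ∀ e, (ed e).1 ≠ (ed e).2)
    (hinj : ∀ e e', s((ed e).1, (ed e).2) = s((ed e').1, (ed e').2) → e = e')
    (hkn : k ≤ n) (K : Finset (Fin (n + 1))) (hK : K.card = k)
    (hKc : IsCliqueOf ed K) :
    ∃ F : Finset (Sym2 (GV n m k)), (F : Set (Sym2 (GV n m k))) ⊆ (redGraph k ed).edgeSet ∧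
      F.card + k.choose 2 = m ∧
      ¬ IsRigid ((redGraph k ed).deleteEdges (F : Set (Sym2 (GV n m k)))) := by
  -- the edges inside the clique
  set E : Finset (Fin m) := Finset.univ.filter (fun e => (ed e).1 ∈ K ∧ (ed e).2 ∈ K) with hE
  have hEc : E.card = k.choose 2 := by
    apply le_antisymm
    · have := (card_edges_in_le ed hed hinj E K (fun e he => (Finset.mem_filter.mp he).2)).1
      rwa [hK] at this
    · have hB : (K.offDiag.image (fun p => s(p.1, p.2))).card = K.card.choose 2 :=
        Sym2.card_image_offDiag K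
      rw [← hK, ← hB]
      have hsub : K.offDiag.image (fun p => s(p.1, p.2)) ⊆
          E.image (fun e => s((ed e).1, (ed e).2)) := by
        intro z hz
        rw [Finset.mem_image] at hz ⊢
        obtain ⟨⟨u, v⟩, huv, rfl⟩ := hz
        rw [Finset.mem_offDiag] at huv
        obtain ⟨e, he⟩ := hKc u huv.1 v huv.2.1 huv.2.2
        refine ⟨e, ?_, he⟩
        rw [hE, Finset.mem_filter]
        refine ⟨Finset.mem_univ _, ?_⟩
        simp only at he huv
        rw [Sym2.eq_iff] at he
        rcases he with ⟨h1, h2⟩ | ⟨h1, h2⟩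
        · rw [h1, h2]; exact ⟨huv.1, huv.2.1⟩
        · rw [h1, h2]; exact ⟨huv.2.1, huv.1⟩
      exact (Finset.card_le_card hsub).trans Finset.card_image_le
  set F : Finset (Sym2 (GV n m k)) := (Finset.univ \ E).image (lightEdge k) with hF
  have hFc : F.card + k.choose 2 = m := by
    rw [hF, Finset.card_image_of_injective _ lightEdge_injective, ← hEc]
    have := Finset.card_sdiff_add_card_eq_card (Finset.subset_univ E)
    rw [this, Finset.card_univ, Fintype.card_fin]
  refine ⟨F, ?_, hFc, ?_⟩
  · intro z hz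
    rw [hF, Finset.coe_image] at hz
    obtain ⟨e, -, rfl⟩ := hz
    exact lightEdge_mem ed e
  -- the rigid block
  set Z : Finset (Sk n m (n - k)) :=
    (((Finset.univ : Finset (Fin 2)).disjSum K).disjSum
      (E.disjSum (∅ : Finset (Fin (n - k) × Fin n)))).map (skEquiv n m (n - k)).symm.toEmbedding
    with hZ
  set HZ : Finset (Hv n m (n - k)) :=
    (((Finset.univ : Finset Unit).disjSum K).disjSum ((E.disjSum E).disjSum
      (((∅ : Finset (Fin (n - k) × Fin n)).disjSum (∅ : Finset (Fin (n - k) × Fin n))).disjSum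
        (∅ : Finset (Fin (n - k)))))).map (hvEquiv n m (n - k)).symm.toEmbedding
    with hHZ
  have hZc : Z.card = 2 + k + k.choose 2 := by
    rw [hZ, Finset.card_map]
    simp [Finset.card_disjSum, hK, hEc]
  have hHZc : HZ.card = 1 + k + (k.choose 2 + k.choose 2) := by
    rw [hHZ, Finset.card_map]
    simp [Finset.card_disjSum, hK, hEc]
  have mg1 : (Sk.g1 : Sk n m (n - k)) ∈ Z := by
    rw [hZ, Finset.mem_map_equiv]; simp [skEquiv]
  have mg2 : (Sk.g2 : Sk n m (n - k)) ∈ Z := by
    rw [hZ, Finset.mem_map_equiv]; simp [skEquiv]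
  have my : ∀ v, (Sk.y v : Sk n m (n - k)) ∈ Z ↔ v ∈ K := by
    intro v; rw [hZ, Finset.mem_map_equiv]; simp [skEquiv]
  have mx : ∀ e, (Sk.x e : Sk n m (n - k)) ∈ Z ↔ e ∈ E := by
    intro e; rw [hZ, Finset.mem_map_equiv]; simp [skEquiv]
  refine not_isRigid_heavy (m + 1) (heavyEnds ed) lightEnds ?_ F Z HZ ?_ (by omega) ?_ ?_
  · intro h h0
    exact heavy_ne ed (fun _ => 0) (fun _ => 0) h (by rw [h0])
  · intro h hh
    rw [hHZ, Finset.mem_map_equiv] at hh
    cases h with
    | g => exact ⟨mg1, mg2⟩
    | gy v =>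
      simp only [hvEquiv, Equiv.symm_symm, Equiv.coe_fn_mk, Finset.inl_mem_disjSum,
        Finset.inr_mem_disjSum] at hh
      exact ⟨(my v).mpr hh, mg1⟩
    | xa e =>
      simp only [hvEquiv, Equiv.symm_symm, Equiv.coe_fn_mk, Finset.inl_mem_disjSum,
        Finset.inr_mem_disjSum] at hh
      exact ⟨(mx e).mpr hh, (my _).mpr ((Finset.mem_filter.mp hh).2.1)⟩
    | xb e =>
      simp only [hvEquiv, Equiv.symm_symm, Equiv.coe_fn_mk, Finset.inl_mem_disjSum,
        Finset.inr_mem_disjSum] at hh
      exact ⟨(mx e).mpr hh, (my _).mpr ((Finset.mem_filter.mp hh).2.2)⟩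
    | rp j i => simp [hvEquiv] at hh
    | ry j i => simp [hvEquiv] at hh
    | rg j => simp [hvEquiv] at hh
  · intro e he
    have heE : e ∈ E := by
      by_contra hne
      apply he
      rw [hF, Finset.mem_image]
      exact ⟨e, by simp [hne], rfl⟩
    exact ⟨(mx e).mpr heE, mg2⟩
  · rw [hZc, hHZc, card_sk, card_hv]
    have : (n - k) + k = n := by omega
    generalize (n - k) * n = w
    omega

open scoped Classical in
/-- **The reduction.** The constructed graph is rigid, and its co-girth is at most
`m - (k choose 2)` if and only if the input graph has a clique of size `k`. -/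
theorem coGirth_le_iff (ed : Fin m → Fin (n + 1) × Fin (n + 1))
    (hed : ∀ e, (ed e).1 ≠ (ed e).2)
    (hinj : ∀ e e', s((ed e).1, (ed e).2) = s((ed e').1, (ed e').2) → e = e')
    (hk : 4 ≤ k) (hkn : k ≤ n) (hm : k.choose 2 < m) :
    coGirth (redGraph k ed) ≤ m - k.choose 2 ↔
      ∃ K : Finset (Fin (n + 1)), K.card = k ∧ IsCliqueOf ed K := by
  constructor
  · intro h
    by_contra hno
    -- some edge set destroys rigidity
    have hne : {r : ℕ | ∃ F : Finset (Sym2 (GV n m k)),
        (F : Set (Sym2 (GV n m k))) ⊆ (redGraph k ed).edgeSet ∧ F.card = r ∧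
        ¬ IsRigid ((redGraph k ed).deleteEdges (F : Set (Sym2 (GV n m k))))}.Nonempty := by
      refine ⟨_, (redGraph k ed).edgeFinset, by simp, rfl, ?_⟩
      intro hr
      obtain ⟨p, hp⟩ := exists_generic (GV n m k)
      have h1 := hr p hp
      have h2 : (rigidityMatrix ((redGraph k ed).deleteEdges
          ((redGraph k ed).edgeFinset : Set (Sym2 (GV n m k)))) p).rank = 0 := by
        have hE : IsEmpty ((redGraph k ed).deleteEdges
          ((redGraph k ed).edgeFinset : Set (Sym2 (GV n m k)))).edgeSet := by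
          rw [Set.isEmpty_coe_sort]
          simp
        haveI : Fintype ↑((redGraph k ed).deleteEdges
          ((redGraph k ed).edgeFinset : Set (Sym2 (GV n m k)))).edgeSet := Fintype.ofIsEmpty
        have := Matrix.rank_le_card_height (rigidityMatrix ((redGraph k ed).deleteEdges
          ((redGraph k ed).edgeFinset : Set (Sym2 (GV n m k)))) p)
        rw [Fintype.card_eq_zero] at this
        omega
      rw [h2] at h1
      have hc : 2 < Fintype.card (GV n m k) := by
        rw [Fintype.card_sum, card_sk]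
        omega
      have h3 := choose_two_ge (Fintype.card (GV n m k)) (by omega)
      rw [min_eq_right h3] at h1
      omega
    obtain ⟨F, -, hFc, hFr⟩ := Nat.sInf_mem hne
    change F.card = coGirth (redGraph k ed) at hFc
    apply hFr
    exact isRigid_of_no_clique ed hed hinj hk hkn F (by omega) (fun _ => hno)
  · rintro ⟨K, hK, hKc⟩
    obtain ⟨F, hFs, hFc, hFr⟩ := not_isRigid_of_clique ed hed hinj hkn K hK hKc
    have : coGirth (redGraph k ed) ≤ F.card := Nat.sInf_le ⟨F, hFs, rfl, hFr⟩
    omega

end Pool.Agent.Helper77.CoGirth
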