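import Pool.Agent.Helper77.CoGirth.Upper

set_option autoImplicit false

namespace Pool.Agent.Helper77.CoGirth

variable {S H L : Type*}

theorem choose_two_ge (v : ℕ) (hv : 2 ≤ v) : 2 * v - 3 ≤ v.choose 2 := by
  induction v, hv using Nat.le_induction with
  | base => decide
  | succ n hn ih =>
    have h := Nat.choose_succ_succ' n 1
    rw [Nat.choose_one_right] at h
    change (n + 1).choose 2 = n + n.choose 2 at h
    omega

/-- **Flexibility criterion for heavy graphs** (rank counting). -/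
theorem not_isRigid_heavy [Fintype S] [Fintype H] (P : ℕ) (ends : H → S × S) (light : L → S × S)
    (hneS : ∀ h, (ends h).1 ≠ (ends h).2)
    (F : Finset (Sym2 (S ⊕ (H × Fin P)))) (Z : Finset S) (HZ : Finset H)
    (hHZ : ∀ h ∈ HZ, (ends h).1 ∈ Z ∧ (ends h).2 ∈ Z) (hZ2 : 2 ≤ Z.card)
    (hlight : ∀ l, s(Sum.inl (light l).1, Sum.inl (light l).2) ∉ F →
      (light l).1 ∈ Z ∧ (light l).2 ∈ Z)
    (hcount : 2 * Z.card + Fintype.card H + 1 ≤ 2 * Fintype.card S + HZ.card) :
    ¬ IsRigid ((heavyGraph P ends light).deleteEdges (F : Set (Sym2 (S ⊕ (H × Fin P))))) := by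
  classical
  intro hrig
  obtain ⟨p, hp⟩ := exists_generic (S ⊕ (H × Fin P))
  have hr := hrig p hp
  have hinj : ∀ u v : S ⊕ (H × Fin P), u ≠ v → p u 1 ≠ p v 1 := by
    intro u v huv h0
    have := hp.injective (a₁ := (u, 1)) (a₂ := (v, 1)) h0
    exact huv (Prod.mk.inj this).1
  set Zp : Finset (S ⊕ (H × Fin P)) := Z.disjSum (HZ ×ˢ Finset.univ) with hZp
  have hZpcard : Zp.card = Z.card + HZ.card * P := by
    rw [hZp, Finset.card_disjSum, Finset.card_product, Finset.card_univ, Fintype.card_fin]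
  have hbodyZ : ∀ h ∈ HZ, ∀ i, bodyVert P ends h i ∈ Zp := by
    intro h hh i
    refine Fin.cases ?_ (fun j => ?_) i
    · simp only [bodyVert, Fin.cons_zero, hZp, Finset.inl_mem_disjSum]
      exact (hHZ h hh).1
    · refine Fin.cases ?_ (fun t => ?_) j
      · simp only [bodyVert, Fin.cons_succ, Fin.cons_zero, hZp, Finset.inl_mem_disjSum]
        exact (hHZ h hh).2
      · simp only [bodyVert, Fin.cons_succ, hZp, Finset.inr_mem_disjSum, Finset.mem_product]
        exact ⟨hh, Finset.mem_univ _⟩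
  set K : H → Submodule ℝ ((S ⊕ (H × Fin P)) × Fin 2 → ℝ) :=
    fun h => eqSpace p (body P ends h) with hK
  set W : Submodule ℝ ((S ⊕ (H × Fin P)) × Fin 2 → ℝ) :=
    eqSpace p Zp ⊔ (Finset.univ \ HZ).sup K with hW
  -- all rows lie in `W`
  have hrows : Submodule.span ℝ (Set.range (rigidityMatrix
      ((heavyGraph P ends light).deleteEdges (F : Set (Sym2 (S ⊕ (H × Fin P))))) p).row) ≤ W := by
    rw [Submodule.span_le]
    rintro _ ⟨⟨e, he⟩, rfl⟩
    induction e with
    | _ u v =>
      have hadj : ((heavyGraph P ends light).deleteEdges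
        (F : Set (Sym2 (S ⊕ (H × Fin P))))).Adj u v := he
      rw [SimpleGraph.deleteEdges_adj] at hadj
      obtain ⟨hadj, hnF⟩ := hadj
      have hnF' : s(u, v) ∉ F := by simpa using hnF
      have huv : u ≠ v := hadj.ne
      rw [heavyGraph, SimpleGraph.fromRel_adj] at hadj
      obtain ⟨-, hadj⟩ := hadj
      have key : (u ∈ Zp ∧ v ∈ Zp) ∨
          ∃ h ∈ Finset.univ \ HZ, u ∈ body P ends h ∧ v ∈ body P ends h := by
        rcases hadj with (⟨h, i, j, rfl, rfl⟩ | ⟨l, rfl, rfl⟩) | (⟨h, i, j, rfl, rfl⟩ | ⟨l, rfl, rfl⟩)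
        · by_cases hh : h ∈ HZ
          · exact Or.inl ⟨hbodyZ h hh i, hbodyZ h hh j⟩
          · exact Or.inr ⟨h, by simp [hh], mem_body.mpr ⟨i, rfl⟩, mem_body.mpr ⟨j, rfl⟩⟩
        · have := hlight l hnF'
          refine Or.inl ⟨?_, ?_⟩
          · simp only [hZp, Finset.inl_mem_disjSum]; exact this.1
          · simp only [hZp, Finset.inl_mem_disjSum]; exact this.2
        · by_cases hh : h ∈ HZ
          · exact Or.inl ⟨hbodyZ h hh j, hbodyZ h hh i⟩
          · exact Or.inr ⟨h, by simp [hh], mem_body.mpr ⟨j, rfl⟩, mem_body.mpr ⟨i, rfl⟩⟩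
        · have := hlight l (by rw [Sym2.eq_swap]; exact hnF')
          refine Or.inl ⟨?_, ?_⟩
          · simp only [hZp, Finset.inl_mem_disjSum]; exact this.2
          · simp only [hZp, Finset.inl_mem_disjSum]; exact this.1
      have hrow : (rigidityMatrix ((heavyGraph P ends light).deleteEdges
          (F : Set (Sym2 (S ⊕ (H × Fin P))))) p).row ⟨s(u, v), he⟩ =
          (fun wc : (S ⊕ (H × Fin P)) × Fin 2 => rigidityEntry p s(u, v) wc.1 wc.2) := rfl
      rw [hrow]
      rcases key with ⟨h1, h2⟩ | ⟨h, hh, h1, h2⟩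
      · exact (le_sup_left : eqSpace p Zp ≤ W) (row_mem_eqSpace p Zp huv h1 h2)
      · have hle : K h ≤ W := le_trans (Finset.le_sup hh) le_sup_right
        exact hle (row_mem_eqSpace p _ huv h1 h2)
  have h1 : (rigidityMatrix ((heavyGraph P ends light).deleteEdges
      (F : Set (Sym2 (S ⊕ (H × Fin P))))) p).rank ≤ Module.finrank ℝ W := by
    rw [Matrix.rank_eq_finrank_span_row]
    exact Submodule.finrank_mono hrows
  have h2 : Module.finrank ℝ W ≤ Module.finrank ℝ (eqSpace p Zp) +
      Module.finrank ℝ ((Finset.univ \ HZ).sup K : Submodule ℝ _) :=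
    Submodule.finrank_add_le_finrank_add_finrank _ _
  have h3 : Module.finrank ℝ (eqSpace p Zp) + 3 ≤ 2 * Zp.card := by
    obtain ⟨u, hu, v, hv, huv⟩ := Finset.one_lt_card.mp (show 1 < Zp.card by rw [hZpcard]; omega)
    exact finrank_eqSpace_le p Zp hu hv (hinj u v huv)
  have h4 : Module.finrank ℝ ((Finset.univ \ HZ).sup K : Submodule ℝ _) ≤
      (Finset.univ \ HZ).card * (2 * P + 1) := by
    apply finrank_sup_le
    intro h _
    have hA : (Sum.inl (ends h).1 : S ⊕ (H × Fin P)) ∈ body P ends h :=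
      mem_body.mpr ⟨0, rfl⟩
    have hB : (Sum.inl (ends h).2 : S ⊕ (H × Fin P)) ∈ body P ends h :=
      mem_body.mpr ⟨1, rfl⟩
    have := finrank_eqSpace_le p (body P ends h) hA hB
      (hinj _ _ (fun h0 => hneS h (Sum.inl_injective h0)))
    rw [card_body P ends h (hneS h)] at this
    have hKh : K h = eqSpace p (body P ends h) := rfl
    rw [hKh]
    omega
  have h5 : (Finset.univ \ HZ).card + HZ.card = Fintype.card H := by
    have := Finset.card_sdiff_add_card_eq_card (Finset.subset_univ HZ)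
    rw [this, Finset.card_univ]
  have hV : Fintype.card (S ⊕ (H × Fin P)) = Fintype.card S + Fintype.card H * P := by
    simp
  have hZS : Z.card ≤ Fintype.card S := Finset.card_le_univ Z
  rw [hV] at hr
  have h6 := choose_two_ge (Fintype.card S + Fintype.card H * P) (by omega)
  rw [min_eq_right h6] at hr
  have e1 : (Finset.univ \ HZ).card * (2 * P + 1) + HZ.card * (2 * P + 1) =
      Fintype.card H * (2 * P + 1) := by
    rw [← add_mul, h5]
  have e2 : HZ.card * (2 * P + 1) = 2 * (HZ.card * P) + HZ.card := by ring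
  have e3 : Fintype.card H * (2 * P + 1) = 2 * (Fintype.card H * P) + Fintype.card H := by ring
  rw [e2, e3] at e1
  rw [hZpcard] at h3
  generalize HZ.card * P = x at *
  generalize Fintype.card H * P = y at *
  generalize (Finset.univ \ HZ).card * (2 * P + 1) = z at *
  omega

end Pool.Agent.Helper77.CoGirth
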