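import Pool.Agent.Helper77.CoGirth.Generic

set_option autoImplicit false

namespace Pool.Agent.Helper77.CoGirth

open scoped Classical in
theorem rigidityEntry_mk {V : Type*} (p : V → Fin 2 → ℝ) {u v : V} (huv : u ≠ v) (w : V)
    (c : Fin 2) :
    rigidityEntry p s(u, v) w c =
      (if w = u then p u c - p v c else 0) + (if w = v then p v c - p u c else 0) := by
  unfold rigidityEntry
  by_cases hwu : w = u
  · subst hwu
    have hmem : w ∈ s(w, v) := Sym2.mem_mk_left w v
    have hoth : Sym2.Mem.other hmem = v := by
      have h := Sym2.other_spec hmem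
      rw [Sym2.congr_right] at h
      exact h
    rw [dif_pos hmem, hoth, if_pos rfl, if_neg huv, add_zero]
  · by_cases hwv : w = v
    · subst hwv
      have hmem : w ∈ s(u, w) := Sym2.mem_mk_right u w
      have hoth : Sym2.Mem.other hmem = u := by
        exact Sym2.congr_right.mp ((Sym2.other_spec hmem).trans Sym2.eq_swap)
      rw [dif_pos hmem, hoth, if_neg hwu, if_pos rfl, zero_add]
    · have hmem : ¬ w ∈ s(u, v) := by
        rw [Sym2.mem_iff]; tauto
      rw [dif_neg hmem, if_neg hwu, if_neg hwv, add_zero]

/-- The row of the edge `uv` applied to an infinitesimal motion `s`. -/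
theorem sum_entry_mul {V : Type*} [Fintype V] (p : V → Fin 2 → ℝ) {u v : V} (huv : u ≠ v)
    (s : V × Fin 2 → ℝ) :
    ∑ wc : V × Fin 2, rigidityEntry p s(u, v) wc.1 wc.2 * s wc =
      ∑ c : Fin 2, (p u c - p v c) * (s (u, c) - s (v, c)) := by
  classical
  rw [Fintype.sum_prod_type, Finset.sum_comm]
  refine Finset.sum_congr rfl fun c _ => ?_
  have : ∀ w : V, rigidityEntry p s(u, v) w c * s (w, c) =
      (if w = u then (p u c - p v c) * s (u, c) else 0) +
        (if w = v then (p v c - p u c) * s (v, c) else 0) := by
    intro w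
    rw [rigidityEntry_mk p huv]
    by_cases h1 : w = u
    · subst h1; simp [huv]
    · by_cases h2 : w = v
      · subst h2; simp [h1]
      · simp [h1, h2]
  simp only [this, Finset.sum_add_distrib, Finset.sum_ite_eq', Finset.mem_univ, if_true]
  ring

/-- The space of infinitesimal motions. -/
noncomputable def motions {V : Type*} [Fintype V] (G : SimpleGraph V) (p : V → Fin 2 → ℝ) :
    Submodule ℝ (V × Fin 2 → ℝ) :=
  LinearMap.ker (rigidityMatrix G p).mulVecLin

theorem mem_motions {V : Type*} [Fintype V] {G : SimpleGraph V} {p : V → Fin 2 → ℝ}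
    {s : V × Fin 2 → ℝ} :
    s ∈ motions G p ↔ ∀ u v, G.Adj u v →
      ∑ c : Fin 2, (p u c - p v c) * (s (u, c) - s (v, c)) = 0 := by
  unfold motions
  rw [LinearMap.mem_ker]
  constructor
  · intro h u v huv
    have := congrFun h ⟨s(u, v), huv⟩
    rw [Matrix.mulVecLin_apply] at this
    simp only [Matrix.mulVec, dotProduct, rigidityMatrix, Matrix.of_apply, Pi.zero_apply] at this
    rw [sum_entry_mul p huv.ne] at this
    exact this
  · intro h
    funext e
    obtain ⟨e, he⟩ := e
    induction e with
    | _ u v =>
      rw [Matrix.mulVecLin_apply]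
      simp only [Matrix.mulVec, dotProduct, rigidityMatrix, Matrix.of_apply, Pi.zero_apply]
      have hadj : G.Adj u v := he
      rw [sum_entry_mul p hadj.ne]
      exact h u v hadj

theorem rank_add_finrank_motions {V : Type*} [Fintype V] (G : SimpleGraph V)
    (p : V → Fin 2 → ℝ) :
    (rigidityMatrix G p).rank + Module.finrank ℝ (motions G p) = 2 * Fintype.card V := by
  have h := LinearMap.finrank_range_add_finrank_ker (rigidityMatrix G p).mulVecLin
  rw [Module.finrank_pi] at h
  unfold motions Matrix.rank
  rw [h]
  simp [mul_comm]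

end Pool.Agent.Helper77.CoGirth
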