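import Pool.Agent.Helper77.CoGirth.Skeleton

set_option autoImplicit false

namespace Pool.Agent.Helper77.CoGirth

variable {n m T : ℕ}

theorem two_eqs_zero {a b c d x y : ℝ} (h1 : a * x + b * y = 0) (h2 : c * x + d * y = 0)
    (hd : a * d - b * c ≠ 0) : x = 0 ∧ y = 0 := by
  constructor
  · have : (a * d - b * c) * x = 0 := by linear_combination d * h1 - b * h2
    exact (mul_eq_zero.mp this).resolve_left hd
  · have : (a * d - b * c) * y = 0 := by linear_combination a * h2 - c * h1
    exact (mul_eq_zero.mp this).resolve_left hd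

theorem bar_prev {ed : Fin m → Fin (n + 1) × Fin (n + 1)} {xv : Fin m → Fin (n + 1)}
    {tv : Fin T → ℕ} {s : Sk n m T × Fin 2 → ℝ}
    (hh : ∀ h : Hv n m T, barOK (skPos xv tv) s (heavyEnds ed h).1 (heavyEnds ed h).2)
    (j : Fin T) (i : ℕ) (hi : i < n) :
    (chainPos (tv j) (i + 1) 0 - chainPos (tv j) i 0) *
        (s (chain j (i + 1), 0) - s (chain j i, 0)) +
      (chainPos (tv j) (i + 1) 1 - chainPos (tv j) i 1) *
        (s (chain j (i + 1), 1) - s (chain j i, 1)) = 0 := by
  have h := hh (Hv.rp j ⟨i, hi⟩)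
  unfold barOK at h
  simp only [heavyEnds] at h
  have e1 : (Sk.r j ⟨i, hi⟩ : Sk n m T) = chain j (i + 1) := by simp [chain, hi]
  rw [e1, skPos_chain xv tv j (i + 1) (by omega), skPos_chain xv tv j i (by omega)] at h
  exact h

theorem bar_y {ed : Fin m → Fin (n + 1) × Fin (n + 1)} {xv : Fin m → Fin (n + 1)}
    {tv : Fin T → ℕ} {s : Sk n m T × Fin 2 → ℝ}
    (hh : ∀ h : Hv n m T, barOK (skPos xv tv) s (heavyEnds ed h).1 (heavyEnds ed h).2)
    (j : Fin T) (i : ℕ) (hi : i < n) :
    (chainPos (tv j) (i + 1) 0 - 1) *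
        (s (chain j (i + 1), 0) - s (Sk.y ⟨i + 1, by omega⟩, 0)) +
      (chainPos (tv j) (i + 1) 1 - (i + 1)) *
        (s (chain j (i + 1), 1) - s (Sk.y ⟨i + 1, by omega⟩, 1)) = 0 := by
  have h := hh (Hv.ry j ⟨i, hi⟩)
  unfold barOK at h
  simp only [heavyEnds] at h
  have e1 : (Sk.r j ⟨i, hi⟩ : Sk n m T) = chain j (i + 1) := by simp [chain, hi]
  have e2 : (⟨i, hi⟩ : Fin n).succ = ⟨i + 1, by omega⟩ := rfl
  rw [e1, skPos_chain xv tv j (i + 1) (by omega), e2] at h
  simp only [skPos, Matrix.cons_val_zero, Matrix.cons_val_one] at h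
  push_cast at h
  exact h

theorem skel_motion_zero (ed : Fin m → Fin (n + 1) × Fin (n + 1))
    (hed : ∀ e, (ed e).1 ≠ (ed e).2) (xv : Fin m → Fin (n + 1)) (tv : Fin T → ℕ)
    (good : Fin m → Prop)
    (hcov : ∀ v : Fin (n + 1), (∃ e, good e ∧ xv e = v ∧ (v = (ed e).1 ∨ v = (ed e).2)) ∨
      (∃ j, tv j = (v : ℕ)))
    (s : Sk n m T × Fin 2 → ℝ)
    (hh : ∀ h : Hv n m T, barOK (skPos xv tv) s (heavyEnds ed h).1 (heavyEnds ed h).2)
    (hl : ∀ e, good e → barOK (skPos xv tv) s (lightEnds e).1 (lightEnds e).2)
    (h20 : s (Sk.g2, 0) = 0) (h21 : s (Sk.g2, 1) = 0) (h10 : s (Sk.g1, 0) = 0) :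
    s = 0 := by
  -- ground bar
  have h11 : s (Sk.g1, 1) = 0 := by
    have := hh Hv.g
    simp only [barOK, heavyEnds, skPos, Matrix.cons_val_zero, Matrix.cons_val_one] at this
    linarith
  -- bars to `g1`
  have hgy : ∀ v : Fin (n + 1),
      s (Sk.y v, 0) + (((v : ℕ) : ℝ) - 1) * s (Sk.y v, 1) = 0 := by
    intro v
    have := hh (Hv.gy v)
    simp only [barOK, heavyEnds, skPos, Matrix.cons_val_zero, Matrix.cons_val_one] at this
    rw [h10, h11] at this
    linarith
  -- radial condition
  have hrad : ∀ v : Fin (n + 1), s (Sk.y v, 0) + ((v : ℕ) : ℝ) * s (Sk.y v, 1) = 0 := by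
    intro v
    rcases hcov v with ⟨e, hge, hxe, hve⟩ | ⟨j, hj⟩
    · have h1 := hl e hge
      simp only [barOK, lightEnds, skPos, Matrix.cons_val_zero, Matrix.cons_val_one, hxe] at h1
      rw [h20, h21] at h1
      have h2 : (2 - 1) * (s (Sk.x e, 0) - s (Sk.y v, 0)) +
          (2 * ((v : ℕ) : ℝ) - ((v : ℕ) : ℝ)) * (s (Sk.x e, 1) - s (Sk.y v, 1)) = 0 := by
        rcases hve with hve | hve
        · have := hh (Hv.xa e)
          simp only [barOK, heavyEnds, skPos, Matrix.cons_val_zero, Matrix.cons_val_one, hxe,
            ← hve] at this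
          exact this
        · have := hh (Hv.xb e)
          simp only [barOK, heavyEnds, skPos, Matrix.cons_val_zero, Matrix.cons_val_one, hxe,
            ← hve] at this
          exact this
      linarith
    · -- the chain `j`
      have hvn : (v : ℕ) ≤ n := by omega
      have key : ∀ i, (v : ℕ) ≤ i → i ≤ n →
          s (chain j i, 0) + ((v : ℕ) : ℝ) * s (chain j i, 1) =
            s (Sk.y v, 0) + ((v : ℕ) : ℝ) * s (Sk.y v, 1) := by
        intro i hi
        induction i, hi using Nat.le_induction with
        | base =>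
          intro _
          rcases Nat.eq_zero_or_pos (v : ℕ) with hv0 | hv0
          · have e1 : (chain j (v : ℕ) : Sk n m T) = Sk.y v := by
              rw [hv0]
              simp only [chain]
              congr 1
              exact Fin.ext hv0.symm
            rw [e1]
          · obtain ⟨i, hi⟩ : ∃ i, (v : ℕ) = i + 1 := ⟨(v : ℕ) - 1, by omega⟩
            have h1 := bar_y hh j i (by omega)
            have e1 : (⟨i + 1, by omega⟩ : Fin (n + 1)) = v := Fin.ext hi.symm
            rw [e1] at h1
            have hsl : slope (tv j) (i + 1) = ((i : ℝ) + 1) := by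
              unfold slope
              rw [hj, hi, if_neg (lt_irrefl _)]
              push_cast
              ring
            simp only [chainPos, Matrix.cons_val_zero, Matrix.cons_val_one, hsl] at h1
            push_cast at h1
            rw [hi]
            push_cast
            have hne : ((i : ℝ) + 1) ≠ 0 := by positivity
            have h2 : ((i : ℝ) + 1) * ((s (chain j (i + 1), 0) +
                ((i : ℝ) + 1) * s (chain j (i + 1), 1)) - (s (Sk.y v, 0) +
                ((i : ℝ) + 1) * s (Sk.y v, 1))) = 0 := by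
              linear_combination h1
            have h3 := (mul_eq_zero.mp h2).resolve_left hne
            linarith
        | succ i hvi ih =>
          intro hin
          rw [← ih (by omega)]
          have h1 := bar_prev hh j i (by omega)
          have hs1 : slope (tv j) (i + 1) = ((v : ℕ) : ℝ) := by
            unfold slope
            rw [hj, if_neg (by omega)]
          have hs0 : slope (tv j) i = ((v : ℕ) : ℝ) := by
            unfold slope
            rw [hj, if_neg (by omega)]
          simp only [chainPos, Matrix.cons_val_zero, Matrix.cons_val_one, hs1, hs0] at h1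
          push_cast at h1
          linear_combination h1
      rw [← key n hvn le_rfl]
      have h1 := hh (Hv.rg j)
      simp only [barOK, heavyEnds] at h1
      rw [skPos_chain xv tv j n le_rfl] at h1
      have hs0 : slope (tv j) n = ((v : ℕ) : ℝ) := by
        unfold slope
        rw [hj, if_neg (by omega)]
      simp only [skPos, chainPos, Matrix.cons_val_zero, Matrix.cons_val_one, hs0, h20, h21] at h1
      have hne : (1 + (n : ℝ)) ≠ 0 := by positivity
      have h2 : (1 + (n : ℝ)) * (s (chain j n, 0) + ((v : ℕ) : ℝ) * s (chain j n, 1)) = 0 := by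
        linear_combination h1
      exact (mul_eq_zero.mp h2).resolve_left hne
  have hy1 : ∀ v : Fin (n + 1), s (Sk.y v, 1) = 0 := by
    intro v
    have := hgy v
    have := hrad v
    linarith
  have hy0 : ∀ v : Fin (n + 1), s (Sk.y v, 0) = 0 := by
    intro v
    have := hrad v
    rw [hy1 v] at this
    linarith
  -- the vertices `x e`
  have hx : ∀ e, s (Sk.x e, 0) = 0 ∧ s (Sk.x e, 1) = 0 := by
    intro e
    have h1 := hh (Hv.xa e)
    have h2 := hh (Hv.xb e)
    simp only [barOK, heavyEnds, skPos, Matrix.cons_val_zero, Matrix.cons_val_one, hy0, hy1,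
      sub_zero] at h1 h2
    apply two_eqs_zero h1 h2
    have hne : (((ed e).1 : ℕ) : ℝ) ≠ (((ed e).2 : ℕ) : ℝ) := by
      intro h0
      exact hed e (Fin.ext (by exact_mod_cast h0))
    intro h0
    apply hne
    linarith
  -- the chains
  have hc : ∀ j : Fin T, ∀ i, i ≤ n → s (chain j i, 0) = 0 ∧ s (chain j i, 1) = 0 := by
    intro j i
    induction i with
    | zero =>
      intro _
      simp only [chain]
      exact ⟨hy0 0, hy1 0⟩
    | succ i ih =>
      intro hi
      obtain ⟨p0, p1⟩ := ih (by omega)
      have h1 := bar_prev hh j i (by omega)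
      have h2 := bar_y hh j i (by omega)
      simp only [p0, p1, hy0, hy1, sub_zero] at h1 h2
      apply two_eqs_zero h1 h2
      simp only [chainPos, Matrix.cons_val_zero, Matrix.cons_val_one]
      push_cast
      have hi0 : (0 : ℝ) ≤ (i : ℝ) := Nat.cast_nonneg _
      unfold slope
      rcases lt_trichotomy (i + 1) (tv j) with hlt | heq | hgt
      · rw [if_pos hlt, if_pos (by omega)]
        intro h0
        ring_nf at h0
        linarith
      · rw [if_neg (by omega), if_pos (by omega), ← heq]
        push_cast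
        intro h0
        have : ((i : ℝ) + 1) ^ 3 = 0 := by linear_combination -h0
        have h3 : ((i : ℝ) + 1) ^ 3 > 0 := by positivity
        linarith
      · rw [if_neg (by omega), if_neg (by omega)]
        have hgt' : ((tv j : ℕ) : ℝ) < (i : ℝ) + 1 := by exact_mod_cast hgt
        intro h0
        have : ((tv j : ℕ) : ℝ) - ((i : ℝ) + 1) = 0 := by linear_combination h0
        linarith
  funext vc
  obtain ⟨v, c⟩ := vc
  cases v with
  | g1 => fin_cases c; exacts [h10, h11]
  | g2 => fin_cases c; exacts [h20, h21]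
  | y v => fin_cases c; exacts [hy0 v, hy1 v]
  | x e => fin_cases c; exacts [(hx e).1, (hx e).2]
  | r j i =>
    have e1 : (Sk.r j i : Sk n m T) = chain j ((i : ℕ) + 1) := by simp [chain]
    have := hc j ((i : ℕ) + 1) (by omega)
    rw [← e1] at this
    fin_cases c; exacts [this.1, this.2]

end Pool.Agent.Helper77.CoGirth
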