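import Pool.Agent.Helper77.CoGirth.NotRigid

set_option autoImplicit false

namespace Pool.Agent.Helper77.CoGirth

/-- Skeleton vertices: two ground vertices, one vertex per vertex of the input graph
(`n + 1` vertices), one per edge of the input graph (`m` edges), and `T` chains of length `n`. -/
inductive Sk (n m T : ℕ) : Type
  | g1 : Sk n m T
  | g2 : Sk n m T
  | y (v : Fin (n + 1)) : Sk n m T
  | x (e : Fin m) : Sk n m T
  | r (j : Fin T) (i : Fin n) : Sk n m T
  deriving DecidableEq, Fintype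

/-- The heavy bars. -/
inductive Hv (n m T : ℕ) : Type
  | g : Hv n m T
  | gy (v : Fin (n + 1)) : Hv n m T
  | xa (e : Fin m) : Hv n m T
  | xb (e : Fin m) : Hv n m T
  | rp (j : Fin T) (i : Fin n) : Hv n m T
  | ry (j : Fin T) (i : Fin n) : Hv n m T
  | rg (j : Fin T) : Hv n m T
  deriving DecidableEq, Fintype

variable {n m T : ℕ}

/-- The `i`-th vertex of the `j`-th chain; the `0`-th one is the vertex `y 0`. -/
def chain (j : Fin T) : ℕ → Sk n m T
  | 0 => Sk.y 0
  | i + 1 => if h : i < n then Sk.r j ⟨i, h⟩ else Sk.y 0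

/-- The ends of the heavy bars. -/
def heavyEnds (ed : Fin m → Fin (n + 1) × Fin (n + 1)) : Hv n m T → Sk n m T × Sk n m T
  | Hv.g => (Sk.g1, Sk.g2)
  | Hv.gy v => (Sk.y v, Sk.g1)
  | Hv.xa e => (Sk.x e, Sk.y (ed e).1)
  | Hv.xb e => (Sk.x e, Sk.y (ed e).2)
  | Hv.rp j i => (Sk.r j i, chain j i)
  | Hv.ry j i => (Sk.r j i, Sk.y i.succ)
  | Hv.rg j => (chain j n, Sk.g2)

/-- The ends of the light bars. -/
def lightEnds : Fin m → Sk n m T × Sk n m T := fun e => (Sk.x e, Sk.g2)

def skEquiv (n m T : ℕ) :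
    Sk n m T ≃ (Fin 2 ⊕ Fin (n + 1)) ⊕ (Fin m ⊕ (Fin T × Fin n)) where
  toFun
    | Sk.g1 => Sum.inl (Sum.inl 0)
    | Sk.g2 => Sum.inl (Sum.inl 1)
    | Sk.y v => Sum.inl (Sum.inr v)
    | Sk.x e => Sum.inr (Sum.inl e)
    | Sk.r j i => Sum.inr (Sum.inr (j, i))
  invFun
    | Sum.inl (Sum.inl 0) => Sk.g1
    | Sum.inl (Sum.inl 1) => Sk.g2
    | Sum.inl (Sum.inr v) => Sk.y v
    | Sum.inr (Sum.inl e) => Sk.x e
    | Sum.inr (Sum.inr (j, i)) => Sk.r j i
  left_inv := by rintro (_ | _ | _ | _ | _) <;> rfl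
  right_inv := by
    rintro ((i | _) | (_ | ⟨_, _⟩))
    · fin_cases i <;> rfl
    all_goals rfl

def hvEquiv (n m T : ℕ) :
    Hv n m T ≃ (Unit ⊕ Fin (n + 1)) ⊕ ((Fin m ⊕ Fin m) ⊕
      ((Fin T × Fin n) ⊕ (Fin T × Fin n)) ⊕ Fin T) where
  toFun
    | Hv.g => Sum.inl (Sum.inl ())
    | Hv.gy v => Sum.inl (Sum.inr v)
    | Hv.xa e => Sum.inr (Sum.inl (Sum.inl e))
    | Hv.xb e => Sum.inr (Sum.inl (Sum.inr e))
    | Hv.rp j i => Sum.inr (Sum.inr (Sum.inl (Sum.inl (j, i))))
    | Hv.ry j i => Sum.inr (Sum.inr (Sum.inl (Sum.inr (j, i))))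
    | Hv.rg j => Sum.inr (Sum.inr (Sum.inr j))
  invFun
    | Sum.inl (Sum.inl ()) => Hv.g
    | Sum.inl (Sum.inr v) => Hv.gy v
    | Sum.inr (Sum.inl (Sum.inl e)) => Hv.xa e
    | Sum.inr (Sum.inl (Sum.inr e)) => Hv.xb e
    | Sum.inr (Sum.inr (Sum.inl (Sum.inl (j, i)))) => Hv.rp j i
    | Sum.inr (Sum.inr (Sum.inl (Sum.inr (j, i)))) => Hv.ry j i
    | Sum.inr (Sum.inr (Sum.inr j)) => Hv.rg j
  left_inv := by rintro (_ | _ | _ | _ | _ | _ | _) <;> rfl
  right_inv := by
    rintro ((_ | _) | ((_ | _) | ((⟨_, _⟩ | ⟨_, _⟩) | _))) <;> rfl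

theorem card_sk : Fintype.card (Sk n m T) = 2 + (n + 1) + (m + T * n) := by
  rw [Fintype.card_congr (skEquiv n m T)]
  simp

theorem card_hv : Fintype.card (Hv n m T) = 1 + (n + 1) + (m + m + (T * n + T * n + T)) := by
  rw [Fintype.card_congr (hvEquiv n m T)]
  simp

/-- The slope of the `i`-th vertex of a chain with switching index `t`. -/
noncomputable def slope (t i : ℕ) : ℝ := if i < t then 0 else t

/-- The position of the `i`-th vertex of a chain with switching index `t`. -/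
noncomputable def chainPos (t i : ℕ) : Fin 2 → ℝ := ![1 + i, (1 + i) * slope t i]

/-- The special realisation of the skeleton. -/
noncomputable def skPos (xv : Fin m → Fin (n + 1)) (tv : Fin T → ℕ) : Sk n m T → Fin 2 → ℝ
  | Sk.g1 => ![0, 1]
  | Sk.g2 => ![0, 0]
  | Sk.y v => ![1, ((v : ℕ) : ℝ)]
  | Sk.x e => ![2, 2 * ((xv e : ℕ) : ℝ)]
  | Sk.r j i => chainPos (tv j) (i + 1)

theorem skPos_chain (xv : Fin m → Fin (n + 1)) (tv : Fin T → ℕ) (j : Fin T) (i : ℕ) (hi : i ≤ n) :
    skPos xv tv (chain j i) = chainPos (tv j) i := by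
  cases i with
  | zero =>
    simp only [chain, skPos, chainPos, slope]
    funext c
    fin_cases c
    · simp
    · by_cases h : 0 < tv j
      · simp [h]
      · have : tv j = 0 := by omega
        simp [this]
  | succ i =>
    have h : i < n := by omega
    simp only [chain, h, dif_pos, skPos]

theorem heavy_ne (ed : Fin m → Fin (n + 1) × Fin (n + 1)) (xv : Fin m → Fin (n + 1))
    (tv : Fin T → ℕ) (h : Hv n m T) :
    skPos xv tv (heavyEnds ed h).1 ≠ skPos xv tv (heavyEnds ed h).2 := by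
  intro h0
  cases h with
  | g =>
    have := congrFun h0 1
    simp [heavyEnds, skPos] at this
  | gy v =>
    have := congrFun h0 0
    simp [heavyEnds, skPos] at this
  | xa e =>
    have := congrFun h0 0
    simp [heavyEnds, skPos] at this
  | xb e =>
    have := congrFun h0 0
    simp [heavyEnds, skPos] at this
  | rp j i =>
    have := congrFun h0 0
    simp only [heavyEnds] at this
    rw [skPos_chain xv tv j i (by omega)] at this
    simp [skPos, chainPos] at this
  | ry j i =>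
    have := congrFun h0 0
    simp only [heavyEnds, skPos, chainPos, Matrix.cons_val_zero] at this
    push_cast at this
    have h2 : (0 : ℝ) ≤ ((i : ℕ) : ℝ) := Nat.cast_nonneg _
    linarith
  | rg j =>
    have := congrFun h0 0
    simp only [heavyEnds] at this
    rw [skPos_chain xv tv j n le_rfl] at this
    simp only [skPos, chainPos, Matrix.cons_val_zero] at this
    have h2 : (0 : ℝ) ≤ (n : ℝ) := Nat.cast_nonneg _
    linarith

end Pool.Agent.Helper77.CoGirth
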