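import Pool.Agent.Helper77.CoGirth.Rank

set_option autoImplicit false

namespace Pool.Agent.Helper77.CoGirth

open scoped Classical in
/-- The generic entries as polynomials. -/
noncomputable def polyEntry {V : Type*} (e : Sym2 V) (w : V) (c : Fin 2) :
    MvPolynomial (V × Fin 2) ℚ :=
  if h : w ∈ e then MvPolynomial.X (w, c) - MvPolynomial.X (Sym2.Mem.other h, c) else 0

theorem aeval_polyEntry {V : Type*} (p : V → Fin 2 → ℝ) (e : Sym2 V) (w : V) (c : Fin 2) :
    MvPolynomial.aeval (fun wc : V × Fin 2 => p wc.1 wc.2) (polyEntry e w c) =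
      rigidityEntry p e w c := by
  unfold polyEntry rigidityEntry
  split_ifs with h
  · simp
  · simp

theorem det_ne_zero_of_rank {r : ℕ} (A : Matrix (Fin r) (Fin r) ℝ) (h : A.rank = r) :
    A.det ≠ 0 := by
  have hli : LinearIndependent ℝ A.row := by
    rw [linearIndependent_iff_card_eq_finrank_span, Set.finrank, ← A.rank_eq_finrank_span_row, h,
      Fintype.card_fin]
  have := (Matrix.linearIndependent_rows_iff_isUnit).mp hli
  exact ((Matrix.isUnit_iff_isUnit_det A).mp this).ne_zero

/-- The rank at a generic realisation is at least the rank at any realisation. -/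
theorem rank_le_rank_of_isGeneric {V : Type*} [Fintype V] (G : SimpleGraph V)
    {p : V → Fin 2 → ℝ} (hp : IsGeneric p) (q : V → Fin 2 → ℝ) :
    (rigidityMatrix G q).rank ≤ (rigidityMatrix G p).rank := by
  classical
  obtain ⟨f, hf, -, hli⟩ :=
    Submodule.exists_fun_fin_finrank_span_eq ℝ (Set.range (rigidityMatrix G q).row)
  have hr : (rigidityMatrix G q).rank =
      Module.finrank ℝ (Submodule.span ℝ (Set.range (rigidityMatrix G q).row)) :=
    Matrix.rank_eq_finrank_span_row _
  rw [hr]
  generalize Module.finrank ℝ (Submodule.span ℝ (Set.range (rigidityMatrix G q).row)) = r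
    at f hf hli
  choose e he using hf
  let N : (V → Fin 2 → ℝ) → Matrix (Fin r) (V × Fin 2) ℝ :=
    fun x => (rigidityMatrix G x).submatrix e id
  have hNq : (N q).rank = r := by
    have : LinearIndependent ℝ (N q).row := by
      have h2 : (N q).row = f := by
        funext i
        exact he i
      rw [h2]; exact hli
    rw [this.rank_matrix, Fintype.card_fin]
  have hdet : (N q * (N q).transpose).det ≠ 0 := by
    apply det_ne_zero_of_rank
    rw [Matrix.rank_self_mul_transpose, hNq]
  let NX : Matrix (Fin r) (V × Fin 2) (MvPolynomial (V × Fin 2) ℚ) :=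
    Matrix.of fun i wc => polyEntry (e i).1 wc.1 wc.2
  have hmap : ∀ x : V → Fin 2 → ℝ,
      MvPolynomial.aeval (fun wc : V × Fin 2 => x wc.1 wc.2) (NX * NX.transpose).det =
        (N x * (N x).transpose).det := by
    intro x
    rw [AlgHom.map_det]
    congr 1
    ext i j
    simp only [AlgHom.mapMatrix_apply, Matrix.map_apply, Matrix.mul_apply, map_sum, map_mul,
      Matrix.transpose_apply, NX, Matrix.of_apply, aeval_polyEntry, N, Matrix.submatrix_apply,
      rigidityMatrix, id]
  have hpoly : (NX * NX.transpose).det ≠ 0 := by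
    intro h0
    apply hdet
    rw [← hmap q, h0, map_zero]
  have hdetp : (N p * (N p).transpose).det ≠ 0 := by
    rw [← hmap p]
    intro h0
    apply hpoly
    have hinj : Function.Injective
        (MvPolynomial.aeval (R := ℚ) (fun wc : V × Fin 2 => p wc.1 wc.2)) := hp
    exact hinj (by rw [h0, map_zero])
  have h1 : (N p * (N p).transpose).rank = r := by
    rw [Matrix.rank_of_det_ne_zero hdetp, Fintype.card_fin]
  have h2 : (N p).rank = r := by
    rw [← Matrix.rank_self_mul_transpose, h1]
  calc r = (N p).rank := h2.symm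
    _ ≤ (rigidityMatrix G p).rank := Matrix.rank_submatrix_le _ _ _

end Pool.Agent.Helper77.CoGirth
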