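import Pool.Agent.Helper77.CoGirth.Heavy

set_option autoImplicit false

namespace Pool.Agent.Helper77.CoGirth

/-- The equilibrium loads supported on `X`. -/
def eqSpace {V : Type*} [Fintype V] (p : V → Fin 2 → ℝ) (X : Finset V) :
    Submodule ℝ (V × Fin 2 → ℝ) where
  carrier := {f | (∀ w, w ∉ X → ∀ c, f (w, c) = 0) ∧ (∀ c, ∑ w, f (w, c) = 0) ∧
    ∑ w, (p w 0 * f (w, 1) - p w 1 * f (w, 0)) = 0}
  zero_mem' := by
    refine ⟨fun _ _ _ => rfl, fun _ => ?_, ?_⟩ <;> simp
  add_mem' := by
    rintro f g ⟨f1, f2, f3⟩ ⟨g1, g2, g3⟩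
    refine ⟨fun w hw c => ?_, fun c => ?_, ?_⟩
    · simp [f1 w hw c, g1 w hw c]
    · simp only [Pi.add_apply, Finset.sum_add_distrib, f2 c, g2 c, add_zero]
    · have : ∀ w, (p w 0 * (f + g) (w, 1) - p w 1 * (f + g) (w, 0)) =
          (p w 0 * f (w, 1) - p w 1 * f (w, 0)) + (p w 0 * g (w, 1) - p w 1 * g (w, 0)) := by
        intro w; simp only [Pi.add_apply]; ring
      simp only [this, Finset.sum_add_distrib, f3, g3, add_zero]
  smul_mem' := by
    rintro a f ⟨f1, f2, f3⟩
    refine ⟨fun w hw c => ?_, fun c => ?_, ?_⟩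
    · simp [f1 w hw c]
    · simp only [Pi.smul_apply, smul_eq_mul, ← Finset.mul_sum, f2 c, mul_zero]
    · have : ∀ w, (p w 0 * (a • f) (w, 1) - p w 1 * (a • f) (w, 0)) =
          a * (p w 0 * f (w, 1) - p w 1 * f (w, 0)) := by
        intro w; simp only [Pi.smul_apply, smul_eq_mul]; ring
      simp only [this, ← Finset.mul_sum, f3, mul_zero]

theorem mem_eqSpace {V : Type*} [Fintype V] {p : V → Fin 2 → ℝ} {X : Finset V}
    {f : V × Fin 2 → ℝ} :
    f ∈ eqSpace p X ↔ (∀ w, w ∉ X → ∀ c, f (w, c) = 0) ∧ (∀ c, ∑ w, f (w, c) = 0) ∧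
      ∑ w, (p w 0 * f (w, 1) - p w 1 * f (w, 0)) = 0 := Iff.rfl

theorem finrank_eqSpace_le {V : Type*} [Fintype V] (p : V → Fin 2 → ℝ) (X : Finset V)
    {u v : V} (hu : u ∈ X) (hv : v ∈ X) (hp : p u 1 ≠ p v 1) :
    Module.finrank ℝ (eqSpace p X) + 3 ≤ 2 * X.card := by
  classical
  have huv : u ≠ v := fun h => hp (by rw [h])
  set T : Finset (V × Fin 2) := (X ×ˢ Finset.univ) \ {(u, 0), (u, 1), (v, 0)} with hT
  have hTcard : T.card + 3 = 2 * X.card := by
    have hsub : ({(u, 0), (u, 1), (v, 0)} : Finset (V × Fin 2)) ⊆ X ×ˢ Finset.univ := by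
      intro x hx
      simp only [Finset.mem_insert, Finset.mem_singleton] at hx
      rcases hx with rfl | rfl | rfl <;> simp [hu, hv]
    have h3 : ({(u, 0), (u, 1), (v, 0)} : Finset (V × Fin 2)).card = 3 := by
      rw [Finset.card_insert_of_notMem, Finset.card_insert_of_notMem, Finset.card_singleton]
      · simp [huv]
      · simp [huv]
    have := Finset.card_sdiff_add_card_eq_card hsub
    rw [h3] at this
    rw [hT, this, Finset.card_product, Finset.card_univ, Fintype.card_fin, mul_comm]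
  let Φ : eqSpace p X →ₗ[ℝ] (T → ℝ) :=
    { toFun := fun f x => f.1 x.1
      map_add' := by intro f g; rfl
      map_smul' := by intro a f; rfl }
  have hΦ : Function.Injective Φ := by
    rw [injective_iff_map_eq_zero]
    rintro ⟨f, hf⟩ h0
    rw [mem_eqSpace] at hf
    obtain ⟨f1, f2, f3⟩ := hf
    have hz : ∀ w c, (w, c) ≠ (u, 0) → (w, c) ≠ (u, 1) → (w, c) ≠ (v, 0) → f (w, c) = 0 := by
      intro w c n1 n2 n3
      by_cases hw : w ∈ X
      · have hm : (w, c) ∈ T := by
          rw [hT, Finset.mem_sdiff]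
          refine ⟨by simp [hw], ?_⟩
          simp only [Finset.mem_insert, Finset.mem_singleton]
          tauto
        exact congrFun h0 ⟨(w, c), hm⟩
      · exact f1 w hw c
    have hv1 : f (v, 1) = 0 := hz v 1 (by simp) (by simp [huv.symm]) (by simp)
    have hwz : ∀ w, w ≠ u → w ≠ v → ∀ c, f (w, c) = 0 := by
      intro w h1 h2 c
      exact hz w c (by simp [h1]) (by simp [h1]) (by simp [h2])
    have s0 := f2 0
    have s1 := f2 1
    rw [Finset.sum_eq_add u v huv (fun w _ h => hwz w h.1 h.2 0) (by simp) (by simp)] at s0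
    rw [Finset.sum_eq_add u v huv (fun w _ h => hwz w h.1 h.2 1) (by simp) (by simp)] at s1
    rw [Finset.sum_eq_add u v huv (fun w _ h => by rw [hwz w h.1 h.2 0, hwz w h.1 h.2 1]; ring)
      (by simp) (by simp)] at f3
    have hu1 : f (u, 1) = 0 := by linarith
    have hu0 : f (u, 0) = - f (v, 0) := by linarith
    rw [hu1, hv1, hu0] at f3
    have : (p u 1 - p v 1) * f (v, 0) = 0 := by linarith
    have hv0 : f (v, 0) = 0 := (mul_eq_zero.mp this).resolve_left (sub_ne_zero.mpr hp)
    rw [hv0, neg_zero] at hu0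
    apply Subtype.ext
    funext wc
    obtain ⟨w, c⟩ := wc
    change f (w, c) = 0
    by_cases h1 : w = u
    · subst h1
      fin_cases c
      · exact hu0
      · exact hu1
    · by_cases h2 : w = v
      · subst h2
        fin_cases c
        · exact hv0
        · exact hv1
      · exact hwz w h1 h2 c
  have h := LinearMap.finrank_le_finrank_of_injective hΦ
  rw [Module.finrank_fintype_fun_eq_card, Fintype.card_coe] at h
  omega

/-- The row of a bar with both ends in `X` belongs to the equilibrium loads on `X`. -/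
theorem row_mem_eqSpace {V : Type*} [Fintype V] (p : V → Fin 2 → ℝ) (X : Finset V)
    {u v : V} (huv : u ≠ v) (hu : u ∈ X) (hv : v ∈ X) :
    (fun wc : V × Fin 2 => rigidityEntry p s(u, v) wc.1 wc.2) ∈ eqSpace p X := by
  classical
  rw [mem_eqSpace]
  have hform := fun w c => rigidityEntry_mk p huv w c
  have hz : ∀ w, w ≠ u → w ≠ v → ∀ c, rigidityEntry p s(u, v) w c = 0 := by
    intro w h1 h2 c
    rw [hform, if_neg h1, if_neg h2, add_zero]
  have eu : ∀ c, rigidityEntry p s(u, v) u c = p u c - p v c := by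
    intro c; rw [hform, if_pos rfl, if_neg huv, add_zero]
  have ev : ∀ c, rigidityEntry p s(u, v) v c = p v c - p u c := by
    intro c; rw [hform, if_pos rfl, if_neg huv.symm, zero_add]
  refine ⟨?_, ?_, ?_⟩
  · intro w hw c
    exact hz w (fun h => hw (h ▸ hu)) (fun h => hw (h ▸ hv)) c
  · intro c
    rw [Finset.sum_eq_add u v huv (fun w _ h => hz w h.1 h.2 c) (by simp) (by simp)]
    rw [eu, ev]; ring
  · rw [Finset.sum_eq_add u v huv (fun w _ h => by
      simp only [hz w h.1 h.2 0, hz w h.1 h.2 1]; ring) (by simp) (by simp)]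
    simp only [eu, ev]; ring

theorem finrank_sup_le {V ι : Type*} [Fintype V] (K : ι → Submodule ℝ (V × Fin 2 → ℝ))
    (A : Finset ι) (d : ℕ) (h : ∀ i ∈ A, Module.finrank ℝ (K i) ≤ d) :
    Module.finrank ℝ (A.sup K : Submodule ℝ (V × Fin 2 → ℝ)) ≤ A.card * d := by
  classical
  induction A using Finset.induction_on with
  | empty => simp
  | insert a A ha ih =>
    rw [Finset.sup_insert, Finset.card_insert_of_notMem ha]
    have h1 := Submodule.finrank_add_le_finrank_add_finrank (K a) (A.sup K)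
    have h2 := ih (fun i hi => h i (Finset.mem_insert_of_mem hi))
    have h3 := h a (Finset.mem_insert_self a A)
    calc _ ≤ Module.finrank ℝ (K a) + Module.finrank ℝ (A.sup K : Submodule ℝ (V × Fin 2 → ℝ)) := h1
      _ ≤ d + A.card * d := Nat.add_le_add h3 h2
      _ = (A.card + 1) * d := by ring

end Pool.Agent.Helper77.CoGirth
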